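import Mathlib

/-! Nilpotent (A,C)-commutative n-ary algebras: definitions. -/

set_option autoImplicit false

namespace Pool.Agent.H53.NA

/-- An `n`-ary algebra structure on `ℂ^k`. -/
abbrev Alg (n k : ℕ) : Type := MultilinearMap ℂ (fun _ : Fin n => Fin k → ℂ) (Fin k → ℂ)

/-- The multiplication is anticommutative in the arguments indexed by `A` and commutative in the
arguments indexed by `C`. -/
def IsCommutative {n k : ℕ} (A C : Finset (Fin n)) (μ : Alg n k) : Prop :=
  (∀ i ∈ A, ∀ j ∈ A, i ≠ j → ∀ x, μ (x ∘ Equiv.swap i j) = - μ x) ∧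
  ∀ i ∈ C, ∀ j ∈ C, i ≠ j → ∀ x, μ (x ∘ Equiv.swap i j) = μ x

/-- `x` is the value of a monomial with `t` applications of the multiplication. -/
inductive Monomial {n k : ℕ} (μ : Alg n k) : ℕ → (Fin k → ℂ) → Prop
  | elt (x : Fin k → ℂ) : Monomial μ 0 x
  | app (t : Fin n → ℕ) (x : Fin n → Fin k → ℂ) (h : ∀ i, Monomial μ (t i) (x i)) :
      Monomial μ (1 + ∑ i, t i) (μ x)

/-- The algebra is nilpotent: for some `m` all monomials with at least `m` applications of the
multiplication are zero. -/
def IsNilpotent {n k : ℕ} (μ : Alg n k) : Prop :=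
  ∃ m : ℕ, ∀ t, m ≤ t → ∀ x, Monomial μ t x → x = 0

/-- The set of the structure constants: the coordinates of the products of the basis vectors. -/
def coord {n k : ℕ} (μ : Alg n k) (s : (Fin n → Fin k) × Fin k) : ℂ :=
  μ (fun i => Pi.single (s.1 i) 1) s.2

/-- The variety of the nilpotent (A,C)-commutative `n`-ary algebra structures, in the affine space of
the structure constants. -/
def variety (n k : ℕ) (A C : Finset (Fin n)) : Set ((Fin n → Fin k) × Fin k → ℂ) :=
  {p | ∃ μ : Alg n k, IsCommutative A C μ ∧ IsNilpotent μ ∧ p = coord μ}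

/-- The subset `X` of the affine space has dimension `D`: the largest number of polynomials whose
restrictions to `X` are algebraically independent is `D` (that is, `D` is the transcendence degree
of the ring of the polynomial functions on `X`). -/
def HasDimension {σ : Type} (X : Set (σ → ℂ)) (D : ℕ) : Prop :=
  IsGreatest {d : ℕ | ∃ f : Fin d → MvPolynomial σ ℂ, ∀ P : MvPolynomial (Fin d) ℂ,
    (∀ x ∈ X, MvPolynomial.eval (fun i => MvPolynomial.eval x (f i)) P = 0) → P = 0} D

end Pool.Agent.H53.NA
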