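import Mathlib
import Pool.Agent.H53.NA.Def

/-! The dimension of the space of the functions with the symmetries. -/

set_option autoImplicit false
set_option linter.unusedSectionVars false

namespace Pool.Agent.H53.NA

open Equiv

section

variable {n : ℕ} (A C : Finset (Fin n)) (L : Type)

/-- the functions which are antisymmetric in `A` and symmetric in `C` -/
def symF : Submodule ℂ ((Fin n → L) → ℂ) where
  carrier := {f | (∀ i ∈ A, ∀ j ∈ A, i ≠ j → ∀ I, f (I ∘ swap i j) = - f I) ∧
    ∀ i ∈ C, ∀ j ∈ C, i ≠ j → ∀ I, f (I ∘ swap i j) = f I}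
  add_mem' := by
    rintro f g ⟨h1, h2⟩ ⟨h3, h4⟩
    refine ⟨fun i hi j hj hij I => ?_, fun i hi j hj hij I => ?_⟩
    · simp only [Pi.add_apply, h1 i hi j hj hij, h3 i hi j hj hij]
      ring
    · simp only [Pi.add_apply, h2 i hi j hj hij, h4 i hi j hj hij]
  zero_mem' := by
    refine ⟨fun i hi j hj hij I => ?_, fun i hi j hj hij I => rfl⟩
    simp
  smul_mem' := by
    rintro c f ⟨h1, h2⟩
    refine ⟨fun i hi j hj hij I => ?_, fun i hi j hj hij I => ?_⟩
    · simp only [Pi.smul_apply, h1 i hi j hj hij, smul_neg]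
    · simp only [Pi.smul_apply, h2 i hi j hj hij]

variable {A C L}

lemma symF_A {f : (Fin n → L) → ℂ} (hf : f ∈ symF A C L) (π : Perm A) (I : Fin n → L) :
    f (I ∘ Perm.ofSubtype π) = (Perm.sign π : ℤ) * f I := by
  classical
  induction π using Equiv.Perm.swap_induction_on generalizing I with
  | one => simp
  | swap_mul π x y hxy ih =>
    rw [map_mul, Perm.ofSubtype_swap_eq, Perm.coe_mul, ← Function.comp_assoc, ih,
      hf.1 x x.2 y y.2 (fun h => hxy (Subtype.ext h)), Perm.sign_mul, Perm.sign_swap hxy]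
    push_cast
    ring

lemma symF_C {f : (Fin n → L) → ℂ} (hf : f ∈ symF A C L) (π : Perm C) (I : Fin n → L) :
    f (I ∘ Perm.ofSubtype π) = f I := by
  classical
  induction π using Equiv.Perm.swap_induction_on generalizing I with
  | one => simp
  | swap_mul π x y hxy ih =>
    rw [map_mul, Perm.ofSubtype_swap_eq, Perm.coe_mul, ← Function.comp_assoc, ih,
      hf.2 x x.2 y y.2 (fun h => hxy (Subtype.ext h))]

lemma symF_zero {f : (Fin n → L) → ℂ} (hf : f ∈ symF A C L) {I : Fin n → L}
    (hI : ¬ Set.InjOn I A) : f I = 0 := by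
  classical
  simp only [Set.InjOn, Finset.mem_coe] at hI
  push Not at hI
  obtain ⟨i, hi, j, hj, hij, hne⟩ := hI
  have h1 := hf.1 i hi j hj hne I
  have h2 : I ∘ swap i j = I := by
    funext x
    simp only [Function.comp_apply]
    rcases eq_or_ne x i with rfl | hx
    · rw [swap_apply_left, hij]
    · rcases eq_or_ne x j with rfl | hx'
      · rw [swap_apply_right, hij]
      · rw [swap_apply_of_ne_of_ne hx hx']
  rw [h2] at h1
  have h3 : (2 : ℂ) * f I = 0 := by linear_combination h1
  rcases mul_eq_zero.1 h3 with h | h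
  · norm_num at h
  · exact h

/-- functions with the same values on `S` -/
lemma exists_perm [DecidableEq L] (S : Finset (Fin n)) (F G : Fin n → L)
    (h : S.val.map F = S.val.map G) : ∃ σ : Perm S, ∀ x : S, F (σ x) = G x := by
  classical
  have hcard : ∀ (F : Fin n → L) (l : L), Fintype.card {x : S // F x = l} = (S.val.map F).count l := by
    intro F l
    rw [Multiset.count_map, Fintype.card_subtype]
    have h1 : (Multiset.filter (fun a => l = F a) S.val).card =
        (S.filter fun a => F a = l).card := by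
      rw [Finset.card, Finset.filter_val]
      congr 1
      refine Multiset.filter_congr fun x _ => ?_
      exact eq_comm
    rw [h1, ← Finset.card_map (Function.Embedding.subtype (· ∈ S))]
    congr 1
    ext x
    simp only [Finset.mem_map, Finset.mem_filter, Finset.mem_univ, true_and,
      Function.Embedding.subtype_apply, Subtype.exists, exists_and_left, exists_prop]
    constructor
    · rintro ⟨a, h2, h3, rfl⟩
      exact ⟨h3, h2⟩
    · rintro ⟨h2, h3⟩
      exact ⟨x, h3, h2, rfl⟩
  have e : ∀ l, {x : S // G x = l} ≃ {x : S // F x = l} := by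
    intro l
    refine Fintype.equivOfCardEq ?_
    rw [hcard, hcard, h]
  refine ⟨Equiv.ofFiberEquiv e, fun x => ?_⟩
  exact Equiv.ofFiberEquiv_map e x

variable (A C L) in
/-- the orbits -/
abbrev Can : Type := {s : Finset L // s.card = A.card} × Sym L C.card ×
  ({x : Fin n // x ∉ A ∧ x ∉ C} → L)

/-- `I` belongs to the orbit `c` -/
def Has [DecidableEq L] (I : Fin n → L) (c : Can A C L) : Prop :=
  A.val.map I = c.1.1.val ∧ C.val.map I = c.2.1.1 ∧ ∀ x : {x : Fin n // x ∉ A ∧ x ∉ C}, I x = c.2.2 x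

lemma Has.inj [DecidableEq L] {I : Fin n → L} {c : Can A C L} (h : Has I c) : Set.InjOn I A := by
  have h1 : (A.val.map I).Nodup := by
    rw [h.1]
    exact c.1.1.nodup
  intro x hx y hy hxy
  exact Multiset.inj_on_of_nodup_map h1 x hx y hy hxy

lemma exists_has_of_inj [DecidableEq L] {I : Fin n → L} (h : Set.InjOn I A) :
    ∃ c : Can A C L, Has I c := by
  refine ⟨⟨⟨A.image I, ?_⟩, ⟨C.val.map I, ?_⟩, fun x => I x⟩, ?_, rfl, fun x => rfl⟩
  · exact Finset.card_image_of_injOn h
  · rw [Multiset.card_map]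
    rfl
  · exact (Finset.image_val_of_injOn h).symm

lemma Has.perm [DecidableEq L] (hAC : Disjoint A C) {I J : Fin n → L} {c : Can A C L}
    (hI : Has I c) (hJ : Has J c) :
    ∃ (α : Perm A) (γ : Perm C), J = (I ∘ Perm.ofSubtype α) ∘ Perm.ofSubtype γ := by
  obtain ⟨α, hα⟩ := exists_perm A I J (by rw [hI.1, hJ.1])
  obtain ⟨γ, hγ⟩ := exists_perm C I J (by rw [hI.2.1, hJ.2.1])
  refine ⟨α, γ, ?_⟩
  funext x
  simp only [Function.comp_apply]
  by_cases hx : x ∈ A
  · have hx' : x ∉ C := Finset.disjoint_left.1 hAC hx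
    rw [Perm.ofSubtype_apply_of_not_mem γ hx', Perm.ofSubtype_apply_of_mem α hx]
    exact (hα ⟨x, hx⟩).symm
  · by_cases hx' : x ∈ C
    · rw [Perm.ofSubtype_apply_of_mem γ hx', Perm.ofSubtype_apply_of_not_mem α
        (fun h => Finset.disjoint_left.1 hAC h (γ ⟨x, hx'⟩).2)]
      exact (hγ ⟨x, hx'⟩).symm
    · rw [Perm.ofSubtype_apply_of_not_mem γ hx', Perm.ofSubtype_apply_of_not_mem α hx]
      rw [hI.2.2 ⟨x, hx, hx'⟩, hJ.2.2 ⟨x, hx, hx'⟩]

lemma map_ofSubtype (S : Finset (Fin n)) (I : Fin n → L) (σ : Perm S) :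
    S.val.map (I ∘ Perm.ofSubtype σ) = S.val.map I := by
  classical
  rw [← Multiset.map_map]
  congr 1
  have h1 : S.map (Perm.ofSubtype σ).toEmbedding = S := by
    ext x
    simp only [Finset.mem_map, Equiv.coe_toEmbedding]
    constructor
    · rintro ⟨y, hy, rfl⟩
      rw [Perm.ofSubtype_apply_of_mem σ hy]
      exact (σ ⟨y, hy⟩).2
    · intro hx
      refine ⟨σ.symm ⟨x, hx⟩, (σ.symm ⟨x, hx⟩).2, ?_⟩
      rw [Perm.ofSubtype_apply_coe]
      simp
  exact congrArg Finset.val h1

lemma map_of_disj {S T : Finset (Fin n)} (h : Disjoint S T) (I : Fin n → L) (σ : Perm T) :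
    S.val.map (I ∘ Perm.ofSubtype σ) = S.val.map I := by
  refine Multiset.map_congr rfl fun x hx => ?_
  simp only [Function.comp_apply]
  rw [Perm.ofSubtype_apply_of_not_mem σ (Finset.disjoint_left.1 h hx)]

lemma Has.act [DecidableEq L] (hAC : Disjoint A C) {I : Fin n → L} {c : Can A C L} (hI : Has I c)
    (α : Perm A) (γ : Perm C) : Has ((I ∘ Perm.ofSubtype α) ∘ Perm.ofSubtype γ) c := by
  refine ⟨?_, ?_, ?_⟩
  · rw [map_of_disj hAC, map_ofSubtype, hI.1]
  · rw [map_ofSubtype, map_of_disj hAC.symm, hI.2.1]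
  · intro x
    simp only [Function.comp_apply]
    rw [Perm.ofSubtype_apply_of_not_mem γ x.2.2, Perm.ofSubtype_apply_of_not_mem α x.2.1, hI.2.2 x]

lemma Has.unique [DecidableEq L] {I : Fin n → L} {c c' : Can A C L} (h : Has I c) (h' : Has I c') :
    c = c' := by
  obtain ⟨⟨s, hs⟩, ⟨m, hm⟩, r⟩ := c
  obtain ⟨⟨s', hs'⟩, ⟨m', hm'⟩, r'⟩ := c'
  have h1 : s = s' := Finset.val_injective (h.1.symm.trans h'.1)
  have h2 : m = m' := h.2.1.symm.trans h'.2.1
  have h3 : r = r' := funext fun x => (h.2.2 x).symm.trans (h'.2.2 x)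
  subst h1 h2 h3
  rfl

lemma exists_fun (S : Finset (Fin n)) (m : Multiset L) (hm : m.card = S.card) :
    ∃ F : S → L, (Finset.univ : Finset S).val.map F = m := by
  classical
  induction m using Quotient.inductionOn with
  | h l =>
    have hl : S.card = l.length := by
      rw [← hm]
      simp
    let e : S ≃ Fin l.length := S.equivFin.trans (finCongr hl)
    refine ⟨l.get ∘ e, ?_⟩
    rw [← Multiset.map_map]
    have h1 : (Finset.univ : Finset S).val.map e = (Finset.univ : Finset (Fin l.length)).val := by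
      have := congrArg Finset.val (Finset.map_univ_equiv e)
      exact this
    rw [h1, Fin.univ_val_map, List.ofFn_get]
    rfl

lemma map_attach (S : Finset (Fin n)) (I : Fin n → L) :
    S.val.map I = Multiset.map (fun x : S => I x) (Finset.univ : Finset S).val := by
  have h1 : (Finset.univ : Finset S).val.map (fun x : S => (x : Fin n)) = S.val := by
    have := congrArg Finset.val (Finset.attach_map_val (s := S))
    simpa using this
  conv_lhs => rw [← h1]
  rw [Multiset.map_map]
  rfl

lemma exists_has [DecidableEq L] (hAC : Disjoint A C) (c : Can A C L) : ∃ I : Fin n → L, Has I c := by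
  classical
  obtain ⟨⟨s, hs⟩, ⟨m, hm⟩, r⟩ := c
  obtain ⟨F, hF⟩ := exists_fun A s.val hs
  obtain ⟨G, hG⟩ := exists_fun C m hm
  refine ⟨fun x => if h : x ∈ A then F ⟨x, h⟩ else if h' : x ∈ C then G ⟨x, h'⟩ else r ⟨x, h, h'⟩,
    ?_, ?_, ?_⟩
  · rw [map_attach]
    refine Eq.trans (Multiset.map_congr rfl fun x _ => ?_) hF
    rw [dif_pos x.2]
  · rw [map_attach]
    refine Eq.trans (Multiset.map_congr rfl fun x _ => ?_) hG
    rw [dif_neg (Finset.disjoint_right.1 hAC x.2), dif_pos x.2]
  · intro x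
    show (if h : (x : Fin n) ∈ A then F ⟨x, h⟩ else if h' : (x : Fin n) ∈ C then G ⟨x, h'⟩
      else r ⟨x, h, h'⟩) = r x
    rw [dif_neg x.2.1, dif_neg x.2.2]

section fin

variable [Fintype L] [DecidableEq L]

open Classical in
/-- the function of an orbit -/
noncomputable def orb (J : Fin n → L) : (Fin n → L) → ℂ := fun I =>
  ∑ α : Perm A, ∑ γ : Perm C,
    if (I ∘ Perm.ofSubtype α) ∘ Perm.ofSubtype γ = J then ((Perm.sign α : ℤ) : ℂ) else 0

lemma orb_mem (hAC : Disjoint A C) (J : Fin n → L) : orb (A := A) (C := C) J ∈ symF A C L := by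
  classical
  refine ⟨fun i hi j hj hij I => ?_, fun i hi j hj hij I => ?_⟩
  · have h1 : (swap i j : Perm (Fin n)) = Perm.ofSubtype (swap (⟨i, hi⟩ : A) ⟨j, hj⟩) := by
      rw [Perm.ofSubtype_swap_eq]
    have hs : Perm.sign (swap (⟨i, hi⟩ : A) ⟨j, hj⟩) = -1 :=
      Perm.sign_swap (fun h => hij (congrArg Subtype.val h))
    unfold orb
    rw [← Finset.sum_neg_distrib]
    refine Fintype.sum_equiv (Equiv.mulLeft (swap (⟨i, hi⟩ : A) ⟨j, hj⟩)) _ _ fun α => ?_
    rw [← Finset.sum_neg_distrib]
    refine Finset.sum_congr rfl fun γ _ => ?_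
    rw [Equiv.coe_mulLeft, map_mul, Perm.coe_mul, ← Function.comp_assoc, ← h1, Perm.sign_mul, hs]
    split_ifs <;> simp
  · have h1 : (swap i j : Perm (Fin n)) = Perm.ofSubtype (swap (⟨i, hi⟩ : C) ⟨j, hj⟩) := by
      rw [Perm.ofSubtype_swap_eq]
    unfold orb
    refine Finset.sum_congr rfl fun α _ => ?_
    refine Fintype.sum_equiv (Equiv.mulLeft (swap (⟨i, hi⟩ : C) ⟨j, hj⟩)) _ _ fun γ => ?_
    rw [Equiv.coe_mulLeft, map_mul, Perm.coe_mul, ← h1]
    have h2 : ((I ∘ swap i j) ∘ Perm.ofSubtype α) ∘ Perm.ofSubtype γ =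
        (I ∘ Perm.ofSubtype α) ∘ (swap i j ∘ Perm.ofSubtype γ) := by
      have h3 : (swap i j : Perm (Fin n)) ∘ Perm.ofSubtype α =
          (Perm.ofSubtype α : Perm (Fin n)) ∘ swap i j := by
        funext x
        simp only [Function.comp_apply]
        have hiA : i ∉ A := Finset.disjoint_right.1 hAC hi
        have hjA : j ∉ A := Finset.disjoint_right.1 hAC hj
        by_cases hx : x ∈ A
        · have hx' : (Perm.ofSubtype α x : Fin n) ∈ A := by
            rw [Perm.ofSubtype_apply_of_mem α hx]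
            exact (α ⟨x, hx⟩).2
          have e1 : (Perm.ofSubtype α x : Fin n) ≠ i := fun h => hiA (h ▸ hx')
          have e2 : (Perm.ofSubtype α x : Fin n) ≠ j := fun h => hjA (h ▸ hx')
          have e3 : x ≠ i := fun h => hiA (h ▸ hx)
          have e4 : x ≠ j := fun h => hjA (h ▸ hx)
          rw [swap_apply_of_ne_of_ne e1 e2, swap_apply_of_ne_of_ne e3 e4]
        · rw [Perm.ofSubtype_apply_of_not_mem α hx, Perm.ofSubtype_apply_of_not_mem α]
          rcases eq_or_ne x i with rfl | h4
          · rwa [swap_apply_left]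
          · rcases eq_or_ne x j with rfl | h5
            · rwa [swap_apply_right]
            · rwa [swap_apply_of_ne_of_ne h4 h5]
      rw [Function.comp_assoc I, h3]
      rfl
    rw [h2]

lemma orb_other (hAC : Disjoint A C) {I J : Fin n → L} {c c' : Can A C L} (hI : Has I c)
    (hJ : Has J c') (hc : c ≠ c') : orb (A := A) (C := C) J I = 0 := by
  classical
  unfold orb
  refine Finset.sum_eq_zero fun α _ => Finset.sum_eq_zero fun γ _ => ?_
  rw [if_neg]
  intro h
  exact hc ((h ▸ hI.act hAC α γ).unique hJ)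

lemma orb_self (hAC : Disjoint A C) {I : Fin n → L} {c : Can A C L} (hI : Has I c) :
    orb (A := A) (C := C) I I ≠ 0 := by
  classical
  have h1 : ∀ α : Perm A, ∀ γ : Perm C,
      (if (I ∘ Perm.ofSubtype α) ∘ Perm.ofSubtype γ = I then ((Perm.sign α : ℤ) : ℂ) else 0) =
      if (I ∘ Perm.ofSubtype α) ∘ Perm.ofSubtype γ = I then ((1 : ℕ) : ℂ) else ((0 : ℕ) : ℂ) := by
    intro α γ
    by_cases h : (I ∘ Perm.ofSubtype α) ∘ Perm.ofSubtype γ = I
    · rw [if_pos h, if_pos h]
      have h2 : α = 1 := by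
        ext x
        have h3 := congrFun h x
        simp only [Function.comp_apply] at h3
        rw [Perm.ofSubtype_apply_of_not_mem γ (Finset.disjoint_left.1 hAC x.2),
          Perm.ofSubtype_apply_coe] at h3
        have := hI.inj (α x).2 x.2 h3
        rw [this]
        rfl
      rw [h2]
      simp
    · rw [if_neg h, if_neg h]
      simp
  unfold orb
  simp only [h1]
  have h2 : (∑ α : Perm A, ∑ γ : Perm C,
      if (I ∘ Perm.ofSubtype α) ∘ Perm.ofSubtype γ = I then ((1 : ℕ) : ℂ) else ((0 : ℕ) : ℂ)) =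
      ((∑ α : Perm A, ∑ γ : Perm C,
      if (I ∘ Perm.ofSubtype α) ∘ Perm.ofSubtype γ = I then 1 else 0 : ℕ) : ℂ) := by
    push_cast
    rfl
  rw [h2]
  have h3 : 0 < ∑ α : Perm A, ∑ γ : Perm C,
      if (I ∘ Perm.ofSubtype α) ∘ Perm.ofSubtype γ = I then 1 else 0 := by
    refine Finset.sum_pos' (fun _ _ => Nat.zero_le _) ⟨1, Finset.mem_univ _, ?_⟩
    refine Finset.sum_pos' (fun _ _ => Nat.zero_le _) ⟨1, Finset.mem_univ _, ?_⟩
    simp
  exact_mod_cast h3.ne'

theorem finrank_symF (hAC : Disjoint A C) :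
    Module.finrank ℂ (symF A C L) = (Fintype.card L).choose A.card *
      ((Fintype.card L).multichoose C.card * (Fintype.card L) ^ (n - A.card - C.card)) := by
  classical
  choose rep hrep using exists_has (A := A) (C := C) (L := L) hAC
  let ρ : symF A C L →ₗ[ℂ] (Can A C L → ℂ) :=
    { toFun := fun f c => f.1 (rep c)
      map_add' := fun _ _ => rfl
      map_smul' := fun _ _ => rfl }
  have hinj : Function.Injective ρ := by
    rw [← LinearMap.ker_eq_bot, LinearMap.ker_eq_bot']
    rintro ⟨f, hf⟩ h0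
    refine Subtype.ext (funext fun I => ?_)
    by_cases hI : Set.InjOn I A
    · obtain ⟨c, hc⟩ := exists_has_of_inj (C := C) hI
      obtain ⟨α, γ, h1⟩ := (hrep c).perm hAC hc
      have h2 : f (rep c) = 0 := congrFun h0 c
      show f I = 0
      rw [h1, symF_C hf, symF_A hf, h2, mul_zero]
    · exact symF_zero hf hI
  have hsurj : Function.Surjective ρ := by
    intro g
    refine ⟨∑ c, (g c / orb (A := A) (C := C) (rep c) (rep c)) •
      (⟨orb (rep c), orb_mem hAC (rep c)⟩ : symF A C L), ?_⟩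
    rw [map_sum]
    funext c'
    rw [Finset.sum_apply, Finset.sum_eq_single c']
    · show (g c' / orb (A := A) (C := C) (rep c') (rep c')) * orb (A := A) (C := C) (rep c') (rep c') = _
      rw [div_mul_cancel₀ _ (orb_self hAC (hrep c'))]
    · intro c _ hc
      show (g c / orb (A := A) (C := C) (rep c) (rep c)) * orb (A := A) (C := C) (rep c) (rep c') = 0
      rw [orb_other hAC (hrep c') (hrep c) (Ne.symm hc), mul_zero]
    · simp
  rw [(LinearEquiv.ofBijective ρ ⟨hinj, hsurj⟩).finrank_eq, Module.finrank_fintype_fun_eq_card,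
    Fintype.card_prod, Fintype.card_prod, Fintype.card_finset_len, Sym.card_sym_eq_multichoose,
    Fintype.card_fun]
  congr 3
  have h1 : Fintype.card {x : Fin n // x ∉ A ∧ x ∉ C} = ((A ∪ C)ᶜ : Finset (Fin n)).card := by
    rw [Fintype.card_subtype]
    congr 1
    ext x
    simp
  rw [h1, Finset.card_compl, Finset.card_union_of_disjoint hAC, Fintype.card_fin]
  omega

end fin

end

end Pool.Agent.H53.NA
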