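import Mathlib
import Pool.Agent.H53.NA.Def

/-! The Jacobian criterion. -/

set_option autoImplicit false

namespace Pool.Agent.H53.NA

open MvPolynomial

variable {τ : Type} [Fintype τ] [DecidableEq τ]

lemma chain {ι : Type} [Fintype ι] [DecidableEq ι] (f : ι → MvPolynomial τ ℂ)
    (P : MvPolynomial ι ℂ) (j : τ) :
    pderiv j (aeval f P) = ∑ i, aeval f (pderiv i P) * pderiv j (f i) := by
  induction P using MvPolynomial.induction_on with
  | C a => simp
  | add p q hp hq =>
    simp only [map_add, hp, hq, add_mul, Finset.sum_add_distrib]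
  | mul_X p i hp =>
    have h1 : ∀ x, aeval f (pderiv x (p * X i)) * pderiv j (f x) =
        aeval f (pderiv x p) * pderiv j (f x) * f i +
          if x = i then aeval f p * pderiv j (f i) else 0 := by
      intro x
      rw [pderiv_mul, map_add, map_mul, map_mul, aeval_X, add_mul]
      by_cases hx : x = i
      · subst hx
        rw [pderiv_X_self, map_one, if_pos rfl]
        ring
      · rw [pderiv_X_of_ne (Ne.symm hx), map_zero, if_neg hx]
        ring
    rw [map_mul, aeval_X, pderiv_mul, hp, Finset.sum_congr rfl fun x _ => h1 x,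
      Finset.sum_add_distrib, Finset.sum_ite_eq' Finset.univ i, if_pos (Finset.mem_univ _),
      Finset.sum_mul]

lemma totalDegree_pderiv {ι : Type} (P : MvPolynomial ι ℂ) (i : ι) {N : ℕ}
    (h : P.totalDegree ≤ N + 1) : (pderiv i P).totalDegree ≤ N := by
  classical
  rw [totalDegree]
  refine Finset.sup_le fun m hm => ?_
  rw [mem_support_iff, coeff_pderiv] at hm
  have h1 : m + Finsupp.single i 1 ∈ P.support := by
    rw [mem_support_iff]
    intro h0
    exact hm (by rw [h0, zero_mul])
  have h2 := le_totalDegree h1
  rw [Finsupp.sum_add_index' (fun _ => rfl) (fun _ _ _ => rfl), Finsupp.sum_single_index rfl] at h2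
  omega

lemma const_of_pderiv {ι : Type} (P : MvPolynomial ι ℂ)
    (h : ∀ i, pderiv i P = 0) : P = C (coeff 0 P) := by
  classical
  ext m
  rw [coeff_C]
  split_ifs with hm
  · rw [hm]
  · obtain ⟨i, hi⟩ : ∃ i, m i ≠ 0 := by
      by_contra hno
      push Not at hno
      exact hm (by ext i; simp [hno i])
    have h1 := congrArg (coeff (m - Finsupp.single i 1)) (h i)
    rw [coeff_pderiv, coeff_zero] at h1
    have h2 : m - Finsupp.single i 1 + Finsupp.single i 1 = m := by
      ext j
      by_cases hj : i = j
      · subst hj
        simp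
        omega
      · simp [Finsupp.single_apply, hj]
    rw [h2] at h1
    rcases mul_eq_zero.1 h1 with h3 | h3
    · exact h3
    · exfalso
      have h4 : ∀ r : ℕ, (r : ℂ) + 1 ≠ 0 := by
        intro r
        exact_mod_cast Nat.succ_ne_zero r
      exact h4 _ h3

theorem jac (f : τ → MvPolynomial τ ℂ) (z₀ : τ → ℂ)
    (h : ∀ i j, eval z₀ (pderiv j (f i)) = if i = j then 1 else 0) :
    ∀ P : MvPolynomial τ ℂ, aeval f P = 0 → P = 0 := by
  have hdet : (Matrix.of fun i j => pderiv j (f i)).det ≠ 0 := by
    intro h0
    have h1 := congrArg (eval z₀) h0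
    rw [map_zero] at h1
    have h2 : (eval z₀ : MvPolynomial τ ℂ →+* ℂ) (Matrix.of fun i j => pderiv j (f i)).det =
        ((eval z₀ : MvPolynomial τ ℂ →+* ℂ).mapMatrix (Matrix.of fun i j => pderiv j (f i))).det := by
      rw [RingHom.map_det]
    rw [h2] at h1
    have h3 : ((eval z₀ : MvPolynomial τ ℂ →+* ℂ).mapMatrix
        (Matrix.of fun i j => pderiv j (f i))) = 1 := by
      ext i j
      simp only [RingHom.mapMatrix_apply, Matrix.map_apply, Matrix.of_apply, h, Matrix.one_apply]
    rw [h3, Matrix.det_one] at h1
    exact one_ne_zero h1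
  have key : ∀ N : ℕ, ∀ P : MvPolynomial τ ℂ, P.totalDegree ≤ N → aeval f P = 0 → P = 0 := by
    intro N
    induction N with
    | zero =>
      intro P hP hz
      have h1 : P = C (coeff 0 P) := totalDegree_eq_zero_iff_eq_C.1 (by omega)
      rw [h1] at hz ⊢
      simp only [aeval_C] at hz
      have : coeff 0 P = 0 := by
        have h2 := congrArg (eval z₀) hz
        simpa using h2
      rw [this, C_0]
    | succ N ih =>
      intro P hP hz
      have h1 : ∀ i, aeval f (pderiv i P) = 0 := by
        have h2 : Matrix.vecMul (fun i => aeval f (pderiv i P))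
            (Matrix.of fun i j => pderiv j (f i)) = 0 := by
          ext1 j
          have := chain f P j
          rw [hz, map_zero] at this
          simp only [Matrix.vecMul, dotProduct, Matrix.of_apply, Pi.zero_apply]
          exact this.symm
        have h3 := Matrix.eq_zero_of_vecMul_eq_zero hdet h2
        exact fun i => congrFun h3 i
      have h4 : ∀ i, pderiv i P = 0 := by
        intro i
        exact ih _ (totalDegree_pderiv P i hP) (h1 i)
      have h7 := const_of_pderiv P h4
      rw [h7] at hz ⊢
      simp only [aeval_C] at hz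
      have : coeff 0 P = 0 := by
        have h2 := congrArg (eval z₀) hz
        simpa using h2
      rw [this, C_0]
  exact fun P => key _ P le_rfl

/-- more polynomials than variables are algebraically dependent -/
theorem dep {D : ℕ} (hD : Fintype.card τ = D) (f : Fin (D + 1) → MvPolynomial τ ℂ) :
    ∃ P : MvPolynomial (Fin (D + 1)) ℂ, P ≠ 0 ∧ aeval f P = 0 := by
  by_contra hno
  push Not at hno
  have h1 : AlgebraicIndependent ℂ f := by
    rw [algebraicIndependent_iff]
    intro P hP
    by_contra h0
    exact hno P h0 hP
  have h2 := h1.lift_cardinalMk_le_trdeg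
  rw [MvPolynomial.trdeg_of_isDomain] at h2
  simp only [Cardinal.mk_fintype, Cardinal.lift_natCast, hD, Nat.cast_le, Fintype.card_fin] at h2
  omega

end Pool.Agent.H53.NA
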