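import Mathlib
import Pool.Agent.H53.NA.Cnt

/-! Normal form of nilpotent algebras. -/

set_option autoImplicit false
set_option linter.unusedSectionVars false

namespace Pool.Agent.H53.NA

variable {n k : ℕ} {μ : Alg n k}

/-- a vector outside `U` all whose products are in `U` -/
lemma exists_ann (hμ : IsNilpotent μ) (U : Submodule ℂ (Fin k → ℂ)) (hU : U ≠ ⊤) :
    ∃ z, z ∉ U ∧ ∀ (v : Fin n → Fin k → ℂ) (i : Fin n), v i = z → μ v ∈ U := by
  classical
  by_contra hno
  push Not at hno
  obtain ⟨m, hm⟩ := hμ
  have key : ∀ t : ℕ, ∃ z, z ∉ U ∧ Monomial μ t z := by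
    intro t
    induction t with
    | zero =>
      obtain ⟨z, -, hz⟩ := SetLike.exists_of_lt (lt_top_iff_ne_top.2 hU)
      exact ⟨z, hz, Monomial.elt z⟩
    | succ t ih =>
      obtain ⟨z, hz, hmz⟩ := ih
      obtain ⟨v, i, hv, hU'⟩ := hno z hz
      refine ⟨μ v, hU', ?_⟩
      have h1 := Monomial.app (μ := μ) (fun j => if j = i then t else 0) v (by
        intro j
        by_cases hj : j = i
        · simp only [hj, if_true]
          rw [hv]
          exact hmz
        · simp only [hj, if_false]
          exact Monomial.elt _)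
      simpa [add_comm] using h1
  obtain ⟨z, hz, hmz⟩ := key m
  exact hz (hm m le_rfl z hmz ▸ U.zero_mem)

/-- the properties of the first `j` steps -/
def Steps (μ : Alg n k) (j : ℕ) (b : ℕ → Fin k → ℂ) (w : ℕ → Fin k) : Prop :=
  ∀ t, t < j → (∀ s, s < t → b t (w s) = 0) ∧ b t (w t) = 1 ∧
    ∀ (v : Fin n → Fin k → ℂ) (i : Fin n), v i = b t → μ v ∈ Submodule.span ℂ (b '' Set.Iio t)

lemma Steps.ideal {j : ℕ} {b : ℕ → Fin k → ℂ} {w : ℕ → Fin k} (h : Steps μ j b w)
    {u : Fin k → ℂ} (hu : u ∈ Submodule.span ℂ (b '' Set.Iio j)) (v : Fin n → Fin k → ℂ) (i : Fin n)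
    (hv : v i = u) : μ v ∈ Submodule.span ℂ (b '' Set.Iio j) := by
  classical
  have h1 : ∀ u ∈ Submodule.span ℂ (b '' Set.Iio j),
      μ (Function.update v i u) ∈ Submodule.span ℂ (b '' Set.Iio j) := by
    intro u hu
    induction hu using Submodule.span_induction with
    | mem x hx =>
      obtain ⟨t, ht, rfl⟩ := hx
      have h2 := (h t ht).2.2 (Function.update v i (b t)) i (by simp)
      refine Submodule.span_mono (Set.image_mono ?_) h2
      exact Set.Iio_subset_Iio (le_of_lt ht)
    | zero =>
      rw [MultilinearMap.map_update_zero]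
      exact Submodule.zero_mem _
    | add x y _ _ hx hy =>
      rw [MultilinearMap.map_update_add]
      exact Submodule.add_mem _ hx hy
    | smul c x _ hx =>
      rw [MultilinearMap.map_update_smul]
      exact Submodule.smul_mem _ _ hx
  have h2 := h1 u hu
  rwa [← hv, Function.update_eq_self] at h2

lemma Steps.reduce {j : ℕ} {b : ℕ → Fin k → ℂ} {w : ℕ → Fin k} (h : Steps μ j b w)
    (z : Fin k → ℂ) : ∀ s, s ≤ j → ∃ z' : Fin k → ℂ,
      z - z' ∈ Submodule.span ℂ (b '' Set.Iio j) ∧ ∀ t, t < s → z' (w t) = 0 := by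
  intro s
  induction s with
  | zero =>
    intro _
    exact ⟨z, by simp, fun t ht => absurd ht (Nat.not_lt_zero t)⟩
  | succ s ih =>
    intro hs
    obtain ⟨z', h1, h2⟩ := ih (by omega)
    refine ⟨z' - z' (w s) • b s, ?_, ?_⟩
    · have h3 : z - (z' - z' (w s) • b s) = (z - z') + z' (w s) • b s := by abel
      rw [h3]
      exact Submodule.add_mem _ h1 (Submodule.smul_mem _ _ (Submodule.subset_span ⟨s, hs, rfl⟩))
    · intro t ht
      rcases Nat.lt_succ_iff_lt_or_eq.1 ht with h3 | h3
      · simp [h2 t h3, (h s hs).1 t h3]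
      · subst h3
        simp [(h t hs).2.1]

lemma exists_steps (hk : 0 < k) (hμ : IsNilpotent μ) (j : ℕ) (hj : j ≤ k) :
    ∃ b w, Steps μ j b w := by
  classical
  induction j with
  | zero => exact ⟨fun _ => 0, fun _ => ⟨0, hk⟩, fun t ht => absurd ht (Nat.not_lt_zero t)⟩
  | succ j ih =>
    obtain ⟨b, w, h⟩ := ih (by omega)
    set U := Submodule.span ℂ (b '' Set.Iio j) with hUdef
    have hU : U ≠ ⊤ := by
      intro htop
      have h1 : Module.finrank ℂ U ≤ j := by
        have h2 : (b '' Set.Iio j) = ((Finset.range j).image b : Set (Fin k → ℂ)) := by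
          ext x
          simp
        rw [hUdef, h2]
        refine (finrank_span_finset_le_card _).trans ?_
        exact Finset.card_image_le.trans (by simp)
      rw [htop, finrank_top, Module.finrank_fintype_fun_eq_card, Fintype.card_fin] at h1
      omega
    obtain ⟨z, hz, hzU⟩ := exists_ann hμ U hU
    obtain ⟨z', h1, h2⟩ := h.reduce z j le_rfl
    have hz' : z' ∉ U := by
      intro h3
      apply hz
      have := U.add_mem h1 h3
      rwa [sub_add_cancel] at this
    obtain ⟨p, hp⟩ : ∃ p, z' p ≠ 0 := by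
      by_contra hno
      push Not at hno
      exact hz' (by rw [funext hno]; exact U.zero_mem)
    refine ⟨fun t => if t = j then (z' p)⁻¹ • z' else b t, fun t => if t = j then p else w t, ?_⟩
    have himg : ∀ t, t ≤ j → (fun t => if t = j then (z' p)⁻¹ • z' else b t) '' Set.Iio t =
        b '' Set.Iio t := by
      intro t ht
      refine Set.image_congr fun s hs => ?_
      have : s ≠ j := by
        have : s < t := hs
        omega
      simp [this]
    intro t ht
    rcases Nat.lt_succ_iff_lt_or_eq.1 ht with h3 | h3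
    · have h4 := h t h3
      have h5 : t ≠ j := by omega
      refine ⟨?_, ?_, ?_⟩
      · intro s hs
        have h6 : s ≠ j := by omega
        simp only [h5, h6, if_false]
        exact h4.1 s hs
      · simp only [h5, if_false]
        exact h4.2.1
      · intro v i hv
        rw [himg t (by omega)]
        simp only [h5, if_false] at hv
        exact h4.2.2 v i hv
    · subst h3
      refine ⟨?_, ?_, ?_⟩
      · intro s hs
        have h6 : s ≠ t := by omega
        simp only [h6, if_false, if_true, Pi.smul_apply, h2 s hs, smul_zero]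
      · simp only [if_true, Pi.smul_apply, smul_eq_mul]
        exact inv_mul_cancel₀ hp
      · intro v i hv
        rw [himg t le_rfl]
        simp only [if_true] at hv
        -- `v i = c • (z - u)`
        have h7 : μ (Function.update v i z') ∈ U := by
          have h8 : z' = z - (z - z') := by abel
          rw [h8, MultilinearMap.map_update_sub]
          refine U.sub_mem (hzU _ i (by simp)) ?_
          exact h.ideal h1 _ i (by simp)
        have h9 : v = Function.update v i ((z' p)⁻¹ • z') := by
          rw [← hv, Function.update_eq_self]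
        rw [h9, MultilinearMap.map_update_smul]
        exact U.smul_mem _ h7

lemma exists_flag (hk : 0 < k) (hμ : IsNilpotent μ) :
    ∃ (w : Equiv.Perm (Fin k)) (b : Fin k → Fin k → ℂ), (∀ m l, m < l → b m (w l) = 0) ∧
      (∀ m, b m (w m) = 1) ∧
      ∀ m (v : Fin n → Fin k → ℂ) (i : Fin n), v i = b m → μ v ∈ Submodule.span ℂ (b '' Set.Ioi m) := by
  classical
  obtain ⟨b, w, h⟩ := exists_steps hk hμ k le_rfl
  have hlt : ∀ m : Fin k, k - 1 - (m : ℕ) < k := fun m => by omega
  have h1 : ∀ m l : Fin k, m < l → b (k - 1 - (m : ℕ)) (w (k - 1 - (l : ℕ))) = 0 := by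
    intro m l hml
    refine (h _ (hlt m)).1 _ ?_
    have : (m : ℕ) < l := hml
    omega
  have h2 : ∀ m : Fin k, b (k - 1 - (m : ℕ)) (w (k - 1 - (m : ℕ))) = 1 := fun m => (h _ (hlt m)).2.1
  have hinj : Function.Injective fun m : Fin k => w (k - 1 - (m : ℕ)) := by
    intro m l hml
    simp only at hml
    rcases lt_trichotomy m l with h3 | h3 | h3
    · have h4 := h1 m l h3
      rw [← hml, h2] at h4
      exact absurd h4 one_ne_zero
    · exact h3
    · have h4 := h1 l m h3
      rw [hml, h2] at h4
      exact absurd h4 one_ne_zero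
  refine ⟨Equiv.ofBijective _ (Finite.injective_iff_bijective.1 hinj), fun m => b (k - 1 - (m : ℕ)),
    fun m l hml => h1 m l hml, fun m => h2 m, fun m v i hv => ?_⟩
  refine Submodule.span_mono ?_ ((h _ (hlt m)).2.2 v i hv)
  rintro _ ⟨t, ht, rfl⟩
  have ht' : t < k - 1 - (m : ℕ) := ht
  refine ⟨⟨k - 1 - t, by omega⟩, ?_, ?_⟩
  · show (m : ℕ) < k - 1 - t
    omega
  · show b (k - 1 - (k - 1 - t)) = b t
    congr 1
    omega

/-- the basis vectors given by the matrix `B` and the permutation `w` -/
def bas (w : Equiv.Perm (Fin k)) (B : Matrix (Fin k) (Fin k) ℂ) (m : Fin k) : Fin k → ℂ :=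
  fun p => B (w.symm p) m

/-- the strictly triangular structures -/
def Nsub (n k : ℕ) (A C : Finset (Fin n)) : Submodule ℂ ((Fin n → Fin k) × Fin k → ℂ) where
  carrier := {f | (∀ l, (fun I => f (I, l)) ∈ symF A C (Fin k)) ∧
    ∀ I l, (∃ i, l ≤ I i) → f (I, l) = 0}
  add_mem' := by
    rintro f g ⟨h1, h2⟩ ⟨h3, h4⟩
    refine ⟨fun l => (symF A C (Fin k)).add_mem (h1 l) (h3 l), fun I l h => ?_⟩
    simp [h2 I l h, h4 I l h]
  zero_mem' := ⟨fun l => (symF A C (Fin k)).zero_mem, fun I l h => rfl⟩
  smul_mem' := by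
    rintro c f ⟨h1, h2⟩
    refine ⟨fun l => (symF A C (Fin k)).smul_mem c (h1 l), fun I l h => ?_⟩
    simp [h2 I l h]

/-- unitriangular matrices are invertible -/
lemma unitri {R : Type} [CommRing R] {B : Matrix (Fin k) (Fin k) R} (h1 : ∀ l m, m < l → B l m = 0)
    (h2 : ∀ m, B m m = 1) : B * B⁻¹ = 1 ∧ B⁻¹ * B = 1 := by
  have hdet : B.det = 1 := by
    rw [Matrix.det_of_isUpperTriangular (fun l m hml => h1 l m hml)]
    simp [h2]
  have hu : IsUnit B.det := by rw [hdet]; exact isUnit_one
  exact ⟨Matrix.mul_nonsing_inv B hu, Matrix.nonsing_inv_mul B hu⟩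

lemma bas_span (w : Equiv.Perm (Fin k)) {B : Matrix (Fin k) (Fin k) ℂ} (h : B * B⁻¹ = 1)
    (v : Fin k → ℂ) : v = ∑ m, (∑ l, B⁻¹ m l * v (w l)) • bas w B m := by
  funext p
  have h1 : ∀ l l', ∑ m, B l m * B⁻¹ m l' = if l = l' then 1 else 0 := by
    intro l l'
    have := congrFun (congrFun h l) l'
    rwa [Matrix.mul_apply, Matrix.one_apply] at this
  rw [Finset.sum_apply]
  simp only [Pi.smul_apply, smul_eq_mul, bas, Finset.sum_mul]
  rw [Finset.sum_comm]
  have h2 : ∀ l, ∑ m, B⁻¹ m l * v (w l) * B (w.symm p) m = if w.symm p = l then v (w l) else 0 := by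
    intro l
    have h3 : ∑ m, B⁻¹ m l * v (w l) * B (w.symm p) m = (∑ m, B (w.symm p) m * B⁻¹ m l) * v (w l) := by
      rw [Finset.sum_mul]
      exact Finset.sum_congr rfl fun m _ => by ring
    rw [h3, h1]
    split_ifs <;> simp
  rw [Finset.sum_congr rfl fun l _ => h2 l, Finset.sum_ite_eq]
  simp

lemma coord_zero (w : Equiv.Perm (Fin k)) {B : Matrix (Fin k) (Fin k) ℂ} (h : B⁻¹ * B = 1)
    {T : Set (Fin k)} {m : Fin k} (hm : m ∉ T) {x : Fin k → ℂ}
    (hx : x ∈ Submodule.span ℂ (bas w B '' T)) : ∑ l, B⁻¹ m l * x (w l) = 0 := by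
  induction hx using Submodule.span_induction with
  | mem x hx =>
    obtain ⟨m', hm', rfl⟩ := hx
    have := congrFun (congrFun h m) m'
    have hne : m ≠ m' := fun h0 => hm (h0 ▸ hm')
    rw [Matrix.mul_apply, Matrix.one_apply, if_neg hne] at this
    simpa [bas] using this
  | zero => simp
  | add x y _ _ hx hy =>
    simp only [Pi.add_apply, mul_add, Finset.sum_add_distrib, hx, hy, add_zero]
  | smul c x _ hx =>
    have h1 : ∀ l, B⁻¹ m l * (c • x) (w l) = c * (B⁻¹ m l * x (w l)) := fun l => by
      simp only [Pi.smul_apply, smul_eq_mul]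
      ring
    rw [Finset.sum_congr rfl fun l _ => h1 l, ← Finset.mul_sum, hx, mul_zero]

theorem normal {A C : Finset (Fin n)} (hk : 0 < k) (hμ : IsNilpotent μ)
    (hc : IsCommutative A C μ) :
    ∃ (w : Equiv.Perm (Fin k)) (B : Matrix (Fin k) (Fin k) ℂ) (S : (Fin n → Fin k) × Fin k → ℂ),
      (∀ l m, m < l → B l m = 0) ∧ (∀ m, B m m = 1) ∧ (∀ l m : Fin k, l < m → (m : ℕ) < A.card → B l m = 0) ∧
      S ∈ Nsub n k A C ∧
      ∀ K l, μ (fun i => bas w B (K i)) (w l) = ∑ m, S (K, m) * B l m := by
  classical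
  obtain ⟨w, b, hb1, hb2, hb3⟩ := exists_flag hk hμ
  -- the matrix of the flag
  set B' : Matrix (Fin k) (Fin k) ℂ := fun l m => b m (w l) with hB'
  have hbas : ∀ m, bas w B' m = b m := by
    intro m
    funext p
    simp [bas, hB']
  obtain ⟨hi1, hi2⟩ := unitri (B := B') (fun l m hml => hb1 m l hml) (fun m => hb2 m)
  set B : Matrix (Fin k) (Fin k) ℂ := fun l m => if (m : ℕ) < A.card ∧ l ≠ m then 0 else B' l m with hB
  have hBt : ∀ l m, m < l → B l m = 0 := by
    intro l m hml
    simp only [hB]
    split_ifs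
    · rfl
    · exact hb1 m l hml
  have hBd : ∀ m, B m m = 1 := by
    intro m
    simp only [hB, ne_eq, not_true_eq_false, and_false, if_false]
    exact hb2 m
  obtain ⟨hj1, hj2⟩ := unitri hBt hBd
  have hbig : ∀ m : Fin k, A.card ≤ (m : ℕ) → bas w B m = b m := by
    intro m hm
    funext p
    simp only [bas, hB]
    rw [if_neg (by omega)]
    simp [hB']
  have himg : ∀ T : Set (Fin k), (∀ m ∈ T, A.card ≤ (m : ℕ)) → b '' T = bas w B '' T := by
    intro T hT
    exact Set.image_congr fun m hm => (hbig m (hT m hm)).symm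
  -- products of vectors of the flag basis
  have hprod : ∀ J : Fin n → Fin k,
      μ (fun i => b (J i)) ∈ Submodule.span ℂ (b '' {m | A.card ≤ (m : ℕ)}) := by
    intro J
    by_cases hJ : Set.InjOn J A
    · rcases Nat.eq_zero_or_pos A.card with h0 | h0
      · have h1 : (b '' {m : Fin k | A.card ≤ (m : ℕ)}) = bas w B' '' Set.univ := by
          have : {m : Fin k | A.card ≤ (m : ℕ)} = Set.univ := by
            ext m
            simp [h0]
          rw [this]
          exact Set.image_congr fun m _ => (hbas m).symm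
        rw [h1, bas_span w hi1 (μ fun i => b (J i))]
        exact Submodule.sum_mem _ fun m _ => Submodule.smul_mem _ _
          (Submodule.subset_span ⟨m, Set.mem_univ _, rfl⟩)
      · obtain ⟨i, hi, hJi⟩ : ∃ i ∈ A, A.card ≤ (J i : ℕ) + 1 := by
          by_contra hno
          push Not at hno
          have h1 : (A.image fun i => (J i : ℕ)).card = A.card := by
            refine Finset.card_image_of_injOn ?_
            intro x hx y hy hxy
            exact hJ hx hy (Fin.ext hxy)
          have h2 : (A.image fun i => (J i : ℕ)) ⊆ Finset.range (A.card - 1) := by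
            intro x hx
            rw [Finset.mem_image] at hx
            obtain ⟨i, hi, rfl⟩ := hx
            rw [Finset.mem_range]
            have := hno i hi
            omega
          have h3 := Finset.card_le_card h2
          rw [h1, Finset.card_range] at h3
          omega
        refine Submodule.span_mono (Set.image_mono ?_) (hb3 (J i) (fun i => b (J i)) i rfl)
        intro m hm
        have hm' : (J i : ℕ) < m := hm
        show A.card ≤ (m : ℕ)
        omega
    · simp only [Set.InjOn, Finset.mem_coe] at hJ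
      push Not at hJ
      obtain ⟨i, hi, j, hj, hij, hne⟩ := hJ
      have h1 := hc.1 i hi j hj hne (fun i => b (J i))
      have h2 : (fun i => b (J i)) ∘ Equiv.swap i j = fun i => b (J i) := by
        funext x
        simp only [Function.comp_apply]
        rcases eq_or_ne x i with rfl | hx
        · rw [Equiv.swap_apply_left, hij]
        · rcases eq_or_ne x j with rfl | hx'
          · rw [Equiv.swap_apply_right, hij]
          · rw [Equiv.swap_apply_of_ne_of_ne hx hx']
      rw [h2] at h1
      have h3 : μ (fun i => b (J i)) = 0 := by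
        funext p
        have h4 := congrFun h1 p
        simp only [Pi.neg_apply] at h4
        have h5 : (2 : ℂ) * μ (fun i => b (J i)) p = 0 := by linear_combination h4
        rcases mul_eq_zero.1 h5 with h | h
        · norm_num at h
        · exact h
      rw [h3]
      exact Submodule.zero_mem _
  have hall : ∀ v : Fin n → Fin k → ℂ,
      μ v ∈ Submodule.span ℂ (b '' {m | A.card ≤ (m : ℕ)}) := by
    intro v
    have h1 : v = fun i => ∑ m, (∑ l, B'⁻¹ m l * v i (w l)) • b m := by
      funext i
      conv_lhs => rw [bas_span w hi1 (v i)]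
      simp only [hbas]
    rw [h1, MultilinearMap.map_sum]
    refine Submodule.sum_mem _ fun J _ => ?_
    rw [MultilinearMap.map_smul_univ]
    exact Submodule.smul_mem _ _ (hprod J)
  -- the structure constants
  refine ⟨w, B, fun q => ∑ l, B⁻¹ q.2 l * μ (fun i => bas w B (q.1 i)) (w l), hBt, hBd, ?_, ⟨?_, ?_⟩, ?_⟩
  · intro l m hlm hm
    simp only [hB]
    rw [if_pos ⟨hm, hlm.ne⟩]
  · intro m
    refine ⟨fun i hi j hj hij I => ?_, fun i hi j hj hij I => ?_⟩
    · have h1 := hc.1 i hi j hj hij (fun x => bas w B (I x))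
      have h2 : (fun x => bas w B ((I ∘ Equiv.swap i j) x)) = (fun x => bas w B (I x)) ∘ Equiv.swap i j :=
        rfl
      simp only [h2, h1, Pi.neg_apply, mul_neg, Finset.sum_neg_distrib]
    · have h1 := hc.2 i hi j hj hij (fun x => bas w B (I x))
      have h2 : (fun x => bas w B ((I ∘ Equiv.swap i j) x)) = (fun x => bas w B (I x)) ∘ Equiv.swap i j :=
        rfl
      simp only [h2, h1]
  · rintro K m ⟨i, hi⟩
    by_cases hKi : A.card ≤ (K i : ℕ)
    · have h1 := hb3 (K i) (fun i => bas w B (K i)) i (hbig _ hKi)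
      rw [himg (Set.Ioi (K i)) (fun m' hm' => by
        have : (K i : ℕ) < m' := hm'
        omega)] at h1
      exact coord_zero w hj2 (T := Set.Ioi (K i)) (by simpa using hi) h1
    · have h1 := hall (fun i => bas w B (K i))
      rw [himg {m : Fin k | A.card ≤ (m : ℕ)} (fun m' hm' => hm')] at h1
      refine coord_zero w hj2 (T := {m | A.card ≤ (m : ℕ)}) ?_ h1
      have : (m : ℕ) ≤ K i := hi
      simp only [Set.mem_setOf_eq]
      omega
  · intro K l
    have h1 : ∀ l', ∑ m, B l m * B⁻¹ m l' = if l = l' then 1 else 0 := by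
      intro l'
      have := congrFun (congrFun hj1 l) l'
      rwa [Matrix.mul_apply, Matrix.one_apply] at this
    simp only [Finset.sum_mul]
    rw [Finset.sum_comm]
    have h2 : ∀ l', ∑ m, B⁻¹ m l' * μ (fun i => bas w B (K i)) (w l') * B l m =
        if l = l' then μ (fun i => bas w B (K i)) (w l') else 0 := by
      intro l'
      have h3 : ∑ m, B⁻¹ m l' * μ (fun i => bas w B (K i)) (w l') * B l m =
          (∑ m, B l m * B⁻¹ m l') * μ (fun i => bas w B (K i)) (w l') := by
        rw [Finset.sum_mul]
        exact Finset.sum_congr rfl fun m _ => by ring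
      rw [h3, h1]
      split_ifs <;> simp
    rw [Finset.sum_congr rfl fun l' _ => h2 l', Finset.sum_ite_eq]
    simp

end Pool.Agent.H53.NA
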