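import Mathlib
import Pool.Agent.H53.NA.Norm

/-! Structure constants in another basis. -/

set_option autoImplicit false
set_option linter.unusedSectionVars false

namespace Pool.Agent.H53.NA

variable {n k : ℕ}

section ring

variable {R : Type} [CommRing R]

lemma prodsum (P Q : Matrix (Fin k) (Fin k) R) (I K : Fin n → Fin k) :
    ∑ J : Fin n → Fin k, (∏ i, P (I i) (J i)) * ∏ i, Q (J i) (K i) = ∏ i, (P * Q) (I i) (K i) := by
  classical
  simp only [Matrix.mul_apply]
  rw [Finset.prod_univ_sum, Fintype.piFinset_univ]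
  exact Finset.sum_congr rfl fun J _ => (Finset.prod_mul_distrib).symm

lemma prodone (I K : Fin n → Fin k) :
    ∏ i, (1 : Matrix (Fin k) (Fin k) R) (I i) (K i) = if I = K then 1 else 0 := by
  classical
  by_cases h : I = K
  · subst h
    simp
  · rw [if_neg h]
    obtain ⟨i, hi⟩ := Function.ne_iff.1 h
    exact Finset.prod_eq_zero (Finset.mem_univ i) (Matrix.one_apply_ne hi)

/-- the structure constants in the standard basis of the structure with the constants `S` in the
basis given by `B` -/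
noncomputable def cf (B : Matrix (Fin k) (Fin k) R) (S : (Fin n → Fin k) × Fin k → R)
    (q : (Fin n → Fin k) × Fin k) : R :=
  ∑ J : Fin n → Fin k, (∏ i, B⁻¹ (J i) (q.1 i)) * ∑ m, S (J, m) * B q.2 m

lemma cf_rel {B : Matrix (Fin k) (Fin k) R} (h : B⁻¹ * B = 1)
    (S : (Fin n → Fin k) × Fin k → R) (K : Fin n → Fin k) (l : Fin k) :
    ∑ I : Fin n → Fin k, (∏ i, B (I i) (K i)) * cf B S (I, l) = ∑ m, S (K, m) * B l m := by
  classical
  simp only [cf, Finset.mul_sum (s := (Finset.univ : Finset (Fin n → Fin k)))]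
  rw [Finset.sum_comm]
  have h1 : ∀ J : Fin n → Fin k, ∑ I : Fin n → Fin k, (∏ i, B (I i) (K i)) *
      ((∏ i, B⁻¹ (J i) (I i)) * ∑ m, S (J, m) * B l m) =
      if J = K then ∑ m, S (J, m) * B l m else 0 := by
    intro J
    have h2 : ∑ I : Fin n → Fin k, (∏ i, B (I i) (K i)) *
      ((∏ i, B⁻¹ (J i) (I i)) * ∑ m, S (J, m) * B l m) =
      (∑ I : Fin n → Fin k, (∏ i, B⁻¹ (J i) (I i)) * ∏ i, B (I i) (K i)) *
        ∑ m, S (J, m) * B l m := by
      rw [Finset.sum_mul]
      exact Finset.sum_congr rfl fun I _ => by ring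
    rw [h2, prodsum, h, prodone]
    split_ifs <;> simp
  rw [Finset.sum_congr rfl fun J _ => h1 J, Finset.sum_ite_eq']
  simp

lemma cf_unique {B : Matrix (Fin k) (Fin k) R} (h : B * B⁻¹ = 1)
    (S c : (Fin n → Fin k) × Fin k → R)
    (hc : ∀ K l, ∑ I : Fin n → Fin k, (∏ i, B (I i) (K i)) * c (I, l) = ∑ m, S (K, m) * B l m)
    (q : (Fin n → Fin k) × Fin k) : c q = cf B S q := by
  classical
  obtain ⟨I, l⟩ := q
  simp only [cf]
  simp only [← hc, Finset.mul_sum]
  rw [Finset.sum_comm]
  have h1 : ∀ I' : Fin n → Fin k, ∑ K : Fin n → Fin k, (∏ i, B⁻¹ (K i) (I i)) *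
      ((∏ i, B (I' i) (K i)) * c (I', l)) = if I' = I then c (I', l) else 0 := by
    intro I'
    have h2 : ∑ K : Fin n → Fin k, (∏ i, B⁻¹ (K i) (I i)) *
      ((∏ i, B (I' i) (K i)) * c (I', l)) =
      (∑ K : Fin n → Fin k, (∏ i, B (I' i) (K i)) * ∏ i, B⁻¹ (K i) (I i)) * c (I', l) := by
      rw [Finset.sum_mul]
      exact Finset.sum_congr rfl fun K _ => by ring
    rw [h2, prodsum, h, prodone]
    split_ifs <;> simp
  rw [Finset.sum_congr rfl fun I' _ => h1 I', Finset.sum_ite_eq']
  simp

end ring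

/-- the structure constants of a nilpotent structure -/
lemma coord_eq {μ : Alg n k} {w : Equiv.Perm (Fin k)} {B : Matrix (Fin k) (Fin k) ℂ}
    {S : (Fin n → Fin k) × Fin k → ℂ} (h : B * B⁻¹ = 1)
    (hS : ∀ K l, μ (fun i => bas w B (K i)) (w l) = ∑ m, S (K, m) * B l m)
    (I : Fin n → Fin k) (l : Fin k) : coord μ (w ∘ I, w l) = cf B S (I, l) := by
  classical
  refine cf_unique h S (fun q => coord μ (w ∘ q.1, w q.2)) (fun K l => ?_) (I, l)
  rw [← hS]
  have h1 : (fun i => bas w B (K i)) = fun i => ∑ p, B p (K i) • (Pi.single (w p) 1 : Fin k → ℂ) := by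
    funext i r
    rw [Finset.sum_apply, Finset.sum_eq_single (w.symm r)]
    · simp [bas]
    · intro p _ hp
      have : r ≠ w p := fun h0 => hp (by rw [h0]; simp)
      simp [Pi.single_apply, this]
    · simp
  rw [h1, MultilinearMap.map_sum, Finset.sum_apply]
  refine Finset.sum_congr rfl fun I _ => ?_
  rw [MultilinearMap.map_smul_univ]
  rfl

/-- the structure with given structure constants -/
noncomputable def mk (c : (Fin n → Fin k) × Fin k → ℂ) : Alg n k :=
  ∑ I : Fin n → Fin k, (((MultilinearMap.mkPiAlgebra ℂ (Fin n) ℂ).compLinearMap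
    (fun i => LinearMap.proj (R := ℂ) (φ := fun _ : Fin k => ℂ) (I i))).smulRight fun l => c (I, l))

lemma mk_apply (c : (Fin n → Fin k) × Fin k → ℂ) (v : Fin n → Fin k → ℂ) (l : Fin k) :
    mk c v l = ∑ I : Fin n → Fin k, (∏ i, v i (I i)) * c (I, l) := by
  unfold mk
  rw [MultilinearMap.sum_apply, Finset.sum_apply]
  rfl

lemma coord_mk (c : (Fin n → Fin k) × Fin k → ℂ) : coord (mk c) = c := by
  classical
  funext q
  obtain ⟨J, l⟩ := q
  unfold coord
  rw [mk_apply]
  have h1 : ∀ I : Fin n → Fin k, ∏ i, (Pi.single (J i) (1 : ℂ) : Fin k → ℂ) (I i) =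
      if I = J then 1 else 0 := by
    intro I
    by_cases h : I = J
    · subst h
      simp
    · rw [if_neg h]
      obtain ⟨i, hi⟩ := Function.ne_iff.1 h
      exact Finset.prod_eq_zero (Finset.mem_univ i) (by simp [Pi.single_apply, hi])
  simp only [h1, ite_mul, one_mul, zero_mul]
  simp

lemma kernel (G : Fin n → Fin k → ℂ) (T : (Fin n → Fin k) → ℂ) (i j : Fin n) (ε : ℂ)
    (hT : ∀ J, T (J ∘ Equiv.swap i j) = ε * T J) :
    ∑ J : Fin n → Fin k, (∏ r, G (Equiv.swap i j r) (J r)) * T J =
      ε * ∑ J : Fin n → Fin k, (∏ r, G r (J r)) * T J := by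
  classical
  rw [Finset.mul_sum]
  refine Fintype.sum_equiv ⟨fun J => J ∘ Equiv.swap i j, fun J => J ∘ Equiv.swap i j, ?_, ?_⟩ _ _
    fun J => ?_
  · intro J
    funext r
    simp
  · intro J
    funext r
    simp
  · simp only [Equiv.coe_fn_mk]
    rw [hT]
    have h1 : ∏ r, G r ((J ∘ Equiv.swap i j) r) = ∏ r, G (Equiv.swap i j r) (J r) := by
      refine Fintype.prod_equiv (Equiv.swap i j) _ _ fun r => ?_
      simp
    have h2 : ε * ε * T J = T J := by
      have h3 := hT (J ∘ Equiv.swap i j)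
      have h4 : (J ∘ Equiv.swap i j) ∘ Equiv.swap i j = J := by
        funext r
        simp
      rw [h4, hT] at h3
      rw [mul_assoc]
      exact h3.symm
    rw [h1]
    linear_combination (-(∏ r, G (Equiv.swap i j r) (J r))) * h2

lemma mk_comm {A C : Finset (Fin n)} {c : (Fin n → Fin k) × Fin k → ℂ}
    (hc : ∀ l, (fun I => c (I, l)) ∈ symF A C (Fin k)) : IsCommutative A C (mk c) := by
  refine ⟨fun i hi j hj hij x => ?_, fun i hi j hj hij x => ?_⟩
  · funext l
    rw [Pi.neg_apply, mk_apply, mk_apply]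
    have := kernel x (fun I => c (I, l)) i j (-1) (fun J => by
      have := (hc l).1 i hi j hj hij J
      simpa using this)
    simpa using this
  · funext l
    rw [mk_apply, mk_apply]
    have := kernel x (fun I => c (I, l)) i j 1 (fun J => by
      have := (hc l).2 i hi j hj hij J
      simpa using this)
    simpa using this

lemma cf_symm {A C : Finset (Fin n)} (B : Matrix (Fin k) (Fin k) ℂ)
    {S : (Fin n → Fin k) × Fin k → ℂ} (hS : S ∈ Nsub n k A C) (l : Fin k) :
    (fun I => cf B S (I, l)) ∈ symF A C (Fin k) := by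
  refine ⟨fun i hi j hj hij I => ?_, fun i hi j hj hij I => ?_⟩
  · have := kernel (fun r p => B⁻¹ p (I r)) (fun J => ∑ m, S (J, m) * B l m) i j (-1) (fun J => by
      rw [Finset.mul_sum]
      refine Finset.sum_congr rfl fun m _ => ?_
      have h1 := (hS.1 m).1 i hi j hj hij J
      simp only at h1
      rw [h1]
      ring)
    simp only [cf, Function.comp_apply]
    simpa using this
  · have := kernel (fun r p => B⁻¹ p (I r)) (fun J => ∑ m, S (J, m) * B l m) i j 1 (fun J => by
      rw [Finset.mul_sum]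
      refine Finset.sum_congr rfl fun m _ => ?_
      have h1 := (hS.1 m).2 i hi j hj hij J
      simp only at h1
      rw [h1]
      ring)
    simp only [cf, Function.comp_apply]
    simpa using this

/-- the coordinates in the basis given by `B` -/
noncomputable def yc (B : Matrix (Fin k) (Fin k) ℂ) (x : Fin k → ℂ) (m : Fin k) : ℂ :=
  ∑ l, B⁻¹ m l * x l

lemma yc_mk {B : Matrix (Fin k) (Fin k) ℂ} (h : B⁻¹ * B = 1) (S : (Fin n → Fin k) × Fin k → ℂ)
    (v : Fin n → Fin k → ℂ) (m : Fin k) :
    yc B (mk (cf B S) v) m = ∑ J : Fin n → Fin k, (∏ i, yc B (v i) (J i)) * S (J, m) := by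
  classical
  have h1 : ∀ J : Fin n → Fin k, ∏ i, yc B (v i) (J i) =
      ∑ I : Fin n → Fin k, (∏ i, B⁻¹ (J i) (I i)) * ∏ i, v i (I i) := by
    intro J
    unfold yc
    rw [Finset.prod_univ_sum, Fintype.piFinset_univ]
    exact Finset.sum_congr rfl fun I _ => Finset.prod_mul_distrib
  have h2 : ∀ m', ∑ l, B⁻¹ m l * B l m' = if m = m' then 1 else 0 := by
    intro m'
    have := congrFun (congrFun h m) m'
    rwa [Matrix.mul_apply, Matrix.one_apply] at this
  have h3 : ∀ l, mk (cf B S) v l = ∑ J : Fin n → Fin k, (∏ i, yc B (v i) (J i)) *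
      ∑ m', S (J, m') * B l m' := by
    intro l
    rw [mk_apply]
    simp only [cf, h1, Finset.mul_sum (s := (Finset.univ : Finset (Fin n → Fin k))), Finset.sum_mul]
    rw [Finset.sum_comm]
    exact Finset.sum_congr rfl fun J _ => Finset.sum_congr rfl fun I _ => by ring
  unfold yc
  have h4 : ∀ l, B⁻¹ m l * mk (cf B S) v l = ∑ J : Fin n → Fin k, (∏ i, yc B (v i) (J i)) *
      ∑ m', S (J, m') * (B⁻¹ m l * B l m') := by
    intro l
    rw [h3, Finset.mul_sum]
    refine Finset.sum_congr rfl fun J _ => ?_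
    rw [Finset.mul_sum, Finset.mul_sum, Finset.mul_sum]
    exact Finset.sum_congr rfl fun m' _ => by ring
  rw [Finset.sum_congr rfl fun l _ => h4 l, Finset.sum_comm]
  refine Finset.sum_congr rfl fun J _ => ?_
  rw [← Finset.mul_sum, Finset.sum_comm]
  congr 1
  simp only [← Finset.mul_sum, h2]
  simp

/-- the numbers of applications -/
def fn (n : ℕ) : ℕ → ℕ
  | 0 => 0
  | j + 1 => n * fn n j + 1

lemma mk_nilpotent (hn : 0 < n) {A C : Finset (Fin n)} {B : Matrix (Fin k) (Fin k) ℂ} (h : B⁻¹ * B = 1)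
    (h' : B * B⁻¹ = 1) {S : (Fin n → Fin k) × Fin k → ℂ} (hS : S ∈ Nsub n k A C) :
    IsNilpotent (mk (cf B S)) := by
  classical
  have key : ∀ t x, Monomial (mk (cf B S)) t x → ∀ j, fn n j ≤ t →
      ∀ m : Fin k, (m : ℕ) < j → yc B x m = 0 := by
    intro t x hx
    induction hx with
    | elt x =>
      intro j hj m hm
      cases j with
      | zero => omega
      | succ j => simp [fn] at hj
    | app t v _ ih =>
      intro j hj m hm
      cases j with
      | zero => omega
      | succ j =>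
        obtain ⟨i, hi⟩ : ∃ i, fn n j ≤ t i := by
          by_contra hno
          push Not at hno
          have h1 : ∑ i, t i < ∑ _i : Fin n, fn n j := by
            refine Finset.sum_lt_sum_of_nonempty ⟨⟨0, hn⟩, Finset.mem_univ _⟩ fun i _ => hno i
          simp only [Finset.sum_const, Finset.card_univ, Fintype.card_fin, smul_eq_mul] at h1
          simp only [fn] at hj
          omega
        rw [yc_mk h]
        refine Finset.sum_eq_zero fun J _ => ?_
        by_cases hJ : (J i : ℕ) < j
        · rw [Finset.prod_eq_zero (Finset.mem_univ i) (ih i j hi (J i) hJ), zero_mul]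
        · rw [hS.2 J m ⟨i, by
            show (m : ℕ) ≤ J i
            omega⟩, mul_zero]
  refine ⟨fn n k, fun t ht x hx => ?_⟩
  have h1 : ∀ m, yc B x m = 0 := fun m => key t x hx k ht m m.2
  have h2 := bas_span 1 h' x
  rw [h2]
  refine Finset.sum_eq_zero fun m _ => ?_
  have h3 := h1 m
  unfold yc at h3
  simp only [Equiv.Perm.coe_one, id_eq, h3, zero_smul]

end Pool.Agent.H53.NA
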