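import Mathlib
import Pool.Agent.H53.NA.Par
import Pool.Agent.H53.NA.Jac

/-! The generic structure and its Jacobian matrix. -/

set_option autoImplicit false
set_option linter.unusedSectionVars false

namespace Pool.Agent.H53.NA

open MvPolynomial

variable {n k : ℕ} (A C : Finset (Fin n))

/-- the entries of the matrix of the flag -/
abbrev UI (k a : ℕ) : Type := {q : Fin k × Fin k // q.1 < q.2 ∧ a ≤ (q.2 : ℕ)}

/-- the parameters -/
abbrev Tau (n k : ℕ) (A C : Finset (Fin n)) : Type :=
  UI k A.card ⊕ Fin (Module.finrank ℂ (Nsub n k A C))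

/-- the generic matrix -/
noncomputable def BX (k : ℕ) : Matrix (Fin k) (Fin k) (MvPolynomial (Tau n k A C) ℂ) := fun l m =>
  if h : l < m ∧ A.card ≤ (m : ℕ) then X (Sum.inl ⟨(l, m), h⟩) else if l = m then 1 else 0

/-- the generic structure constants in the new basis -/
noncomputable def SX (q : (Fin n → Fin k) × Fin k) : MvPolynomial (Tau n k A C) ℂ :=
  ∑ t, MvPolynomial.C (((Module.finBasis ℂ (Nsub n k A C)) t).1 q) * X (Sum.inr t)

/-- the generic structure constants -/
noncomputable def cX (q : (Fin n → Fin k) × Fin k) : MvPolynomial (Tau n k A C) ℂ :=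
  cf (BX A C k) (SX A C) q

/-- the matrix of a point -/
noncomputable def Bz (z : Tau n k A C → ℂ) : Matrix (Fin k) (Fin k) ℂ := fun l m =>
  if h : l < m ∧ A.card ≤ (m : ℕ) then z (Sum.inl ⟨(l, m), h⟩) else if l = m then 1 else 0

/-- the structure constants in the new basis, of a point -/
noncomputable def Sz (z : Tau n k A C → ℂ) : (Fin n → Fin k) × Fin k → ℂ :=
  ((∑ t, z (Sum.inr t) • Module.finBasis ℂ (Nsub n k A C) t : Nsub n k A C) :
    (Fin n → Fin k) × Fin k → ℂ)

variable {A C}

lemma Sz_mem (z : Tau n k A C → ℂ) : Sz A C z ∈ Nsub n k A C := (∑ t, z (Sum.inr t) •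
  Module.finBasis ℂ (Nsub n k A C) t : Nsub n k A C).2

lemma eval_SX (z : Tau n k A C → ℂ) (q : (Fin n → Fin k) × Fin k) :
    eval z (SX A C q) = Sz A C z q := by
  unfold SX Sz
  rw [map_sum, Submodule.coe_sum, Finset.sum_apply]
  refine Finset.sum_congr rfl fun t _ => ?_
  rw [map_mul, eval_C, eval_X, Submodule.coe_smul, Pi.smul_apply, smul_eq_mul, mul_comm]

lemma eval_BX (z : Tau n k A C → ℂ) (l m : Fin k) : eval z (BX A C k l m) = Bz A C z l m := by
  unfold BX Bz
  split_ifs <;> simp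

lemma BX_inv : (BX A C k) * (BX A C k)⁻¹ = 1 ∧ (BX A C k)⁻¹ * (BX A C k) = 1 := by
  refine unitri (fun l m hml => ?_) (fun m => ?_)
  · unfold BX
    rw [dif_neg (fun h => absurd h.1 (not_lt.2 hml.le)), if_neg hml.ne']
  · unfold BX
    rw [dif_neg (fun h => absurd h.1 (lt_irrefl _)), if_pos rfl]

lemma Bz_inv (z : Tau n k A C → ℂ) : (Bz A C z) * (Bz A C z)⁻¹ = 1 ∧ (Bz A C z)⁻¹ * (Bz A C z) = 1 := by
  refine unitri (fun l m hml => ?_) (fun m => ?_)
  · unfold Bz
    rw [dif_neg (fun h => absurd h.1 (not_lt.2 hml.le)), if_neg hml.ne']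
  · unfold Bz
    rw [dif_neg (fun h => absurd h.1 (lt_irrefl _)), if_pos rfl]

lemma eval_BXinv (z : Tau n k A C → ℂ) (l m : Fin k) :
    eval z ((BX A C k)⁻¹ l m) = (Bz A C z)⁻¹ l m := by
  have h1 : (BX A C k)⁻¹.map (eval z) * Bz A C z = 1 := by
    have h2 : Bz A C z = (BX A C k).map (eval z) := by
      ext l m
      rw [Matrix.map_apply, eval_BX]
    rw [h2, ← Matrix.map_mul, BX_inv.2]
    ext l m
    by_cases h : l = m <;> simp [Matrix.map_apply, Matrix.one_apply, h]
  rw [Matrix.inv_eq_left_inv h1]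
  rfl

lemma eval_cX (z : Tau n k A C → ℂ) (q : (Fin n → Fin k) × Fin k) :
    eval z (cX A C q) = cf (Bz A C z) (Sz A C z) q := by
  unfold cX cf
  simp only [map_sum, map_mul, map_prod, eval_SX, eval_BX, eval_BXinv]

/-- all points give elements of the variety -/
lemma mem_variety (hn : 0 < n) (z : Tau n k A C → ℂ) :
    (fun q => eval z (cX A C q)) ∈ variety n k A C := by
  refine ⟨mk (cf (Bz A C z) (Sz A C z)), mk_comm (fun l => cf_symm _ (Sz_mem z) l),
    mk_nilpotent hn (Bz_inv z).2 (Bz_inv z).1 (Sz_mem z), ?_⟩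
  rw [coord_mk]
  funext q
  exact eval_cX z q

/-- up to a permutation all elements of the variety are obtained -/
lemma exists_point (hk : 0 < k) {p : (Fin n → Fin k) × Fin k → ℂ} (hp : p ∈ variety n k A C) :
    ∃ (w : Equiv.Perm (Fin k)) (z : Tau n k A C → ℂ), ∀ I l,
      p (w ∘ I, w l) = eval z (cX A C (I, l)) := by
  obtain ⟨μ, hc, hμ, rfl⟩ := hp
  obtain ⟨w, B, S, hB1, hB2, hB3, hS, hrel⟩ := normal hk hμ hc
  set z : Tau n k A C → ℂ := Sum.elim (fun q => B q.1.1 q.1.2)
    (fun t => (Module.finBasis ℂ (Nsub n k A C)).repr ⟨S, hS⟩ t) with hz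
  have h1 : Bz A C z = B := by
    ext l m
    unfold Bz
    split_ifs with h h'
    · rfl
    · rw [h', hB2]
    · rcases lt_or_gt_of_ne h' with h3 | h3
      · rw [hB3 l m h3]
        by_contra h4
        exact h ⟨h3, not_lt.1 h4⟩
      · rw [hB1 l m h3]
  have h2 : Sz A C z = S := by
    unfold Sz
    simp only [hz, Sum.elim_inr]
    rw [Module.Basis.sum_repr]
  refine ⟨w, z, fun I l => ?_⟩
  rw [eval_cX, h1, h2]
  exact coord_eq (unitri hB1 hB2).1 hrel I l

/-! ### the Jacobian matrix -/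

section der

variable {τ : Type} [Fintype τ]

/-- the derivative in the direction `x` at the point `z` -/
noncomputable def dd (z x : τ → ℂ) (p : MvPolynomial τ ℂ) : ℂ := ∑ t, x t * eval z (pderiv t p)

lemma dd_add (z x : τ → ℂ) (p q : MvPolynomial τ ℂ) : dd z x (p + q) = dd z x p + dd z x q := by
  unfold dd
  simp only [map_add, mul_add, Finset.sum_add_distrib]

lemma dd_sum {ι : Type} (s : Finset ι) (z x : τ → ℂ) (f : ι → MvPolynomial τ ℂ) :
    dd z x (∑ i ∈ s, f i) = ∑ i ∈ s, dd z x (f i) := by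
  classical
  unfold dd
  simp only [map_sum, Finset.mul_sum]
  exact Finset.sum_comm

lemma dd_mul (z x : τ → ℂ) (p q : MvPolynomial τ ℂ) :
    dd z x (p * q) = dd z x p * eval z q + eval z p * dd z x q := by
  unfold dd
  rw [Finset.sum_mul, Finset.mul_sum, ← Finset.sum_add_distrib]
  refine Finset.sum_congr rfl fun t _ => ?_
  rw [pderiv_mul, map_add, map_mul, map_mul]
  ring

lemma dd_prod {ι : Type} (s : Finset ι) (z x : τ → ℂ) (f : ι → MvPolynomial τ ℂ)
    (h : ∀ i ∈ s, dd z x (f i) = 0) : dd z x (∏ i ∈ s, f i) = 0 := by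
  classical
  induction s using Finset.induction_on with
  | empty =>
    rw [Finset.prod_empty]
    simp [dd]
  | insert a s ha ih =>
    rw [Finset.prod_insert ha, dd_mul, h a (Finset.mem_insert_self _ _),
      ih fun i hi => h i (Finset.mem_insert_of_mem hi)]
    simp

lemma dd_C (z x : τ → ℂ) (a : ℂ) : dd z x (MvPolynomial.C a) = 0 := by
  unfold dd
  simp

lemma dd_X [DecidableEq τ] (z x : τ → ℂ) (t : τ) : dd z x (X t) = x t := by
  unfold dd
  rw [Finset.sum_eq_single t]
  · simp
  · intro b _ hb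
    rw [pderiv_X_of_ne (Ne.symm hb)]
    simp
  · simp

end der

/-- the derivative is injective at a suitable point -/
lemma dd_inj (z x : Tau n k A C → ℂ) (hz : ∀ q, z (Sum.inl q) = 0)
    (hs : ∀ m : Fin k, A.card ≤ (m : ℕ) → 0 < (m : ℕ) → ∃ K : Fin n → Fin k,
      (∀ i, K i < m) ∧ (∃ i, (K i : ℕ) + 1 = m) ∧ Sz A C z (K, m) ≠ 0 ∧
        ∀ m', m' ≠ m → Sz A C z (K, m') = 0)
    (hx : ∀ q, dd z x (cX A C q) = 0) : x = 0 := by
  classical
  have hB1 : ∀ l m, eval z (BX A C k l m) = if l = m then 1 else 0 := by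
    intro l m
    rw [eval_BX]
    unfold Bz
    split_ifs with h h' h'
    · rw [h'] at h
      exact absurd h.1 (lt_irrefl _)
    · exact hz _
    · rfl
    · rfl
  have hrel : ∀ (K : Fin n → Fin k) (l : Fin k),
      ∑ I : Fin n → Fin k, dd z x (∏ i, BX A C k (I i) (K i)) * eval z (cX A C (I, l)) =
      dd z x (SX A C (K, l)) + ∑ m, Sz A C z (K, m) * dd z x (BX A C k l m) := by
    intro K l
    have h1 := congrArg (dd z x) (cf_rel (BX_inv (A := A) (C := C) (k := k)).2 (SX A C) K l)
    rw [dd_sum, dd_sum] at h1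
    have h2 : ∀ I : Fin n → Fin k, dd z x ((∏ i, BX A C k (I i) (K i)) * cf (BX A C k) (SX A C) (I, l)) =
        dd z x (∏ i, BX A C k (I i) (K i)) * eval z (cX A C (I, l)) := by
      intro I
      rw [dd_mul]
      have h3 := hx (I, l)
      unfold cX at h3
      rw [h3, mul_zero, add_zero]
      rfl
    have h4 : ∀ m, dd z x (SX A C (K, m) * BX A C k l m) =
        (if l = m then dd z x (SX A C (K, m)) else 0) + Sz A C z (K, m) * dd z x (BX A C k l m) := by
      intro m
      rw [dd_mul, hB1, eval_SX]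
      split_ifs <;> simp
    rw [Finset.sum_congr rfl fun I _ => h2 I, Finset.sum_congr rfl fun m _ => h4 m,
      Finset.sum_add_distrib, Finset.sum_ite_eq, if_pos (Finset.mem_univ _)] at h1
    exact h1
  have hBd : ∀ l m, dd z x (BX A C k l m) =
      if h : l < m ∧ A.card ≤ (m : ℕ) then x (Sum.inl ⟨(l, m), h⟩) else 0 := by
    intro l m
    unfold BX
    split_ifs with h h'
    · rw [dd_X]
    · have := dd_C z x 1
      rwa [map_one] at this
    · have := dd_C z x 0
      rwa [map_zero] at this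
  have hSd : ∀ K l, dd z x (SX A C (K, l)) = Sz A C (fun t => x t) (K, l) := by
    intro K l
    rw [← eval_SX]
    unfold SX
    rw [dd_sum, map_sum]
    refine Finset.sum_congr rfl fun t _ => ?_
    rw [dd_mul, dd_C, dd_X]
    simp
  have hcol : ∀ m : ℕ, ∀ (h : m < k) (l : Fin k), dd z x (BX A C k l ⟨m, h⟩) = 0 := by
    intro m
    induction m using Nat.strong_induction_on with
    | _ m ih =>
      intro h l
      by_cases hlm : l < ⟨m, h⟩ ∧ A.card ≤ m
      · have hm0 : 0 < m := by
          have : (l : ℕ) < m := hlm.1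
          omega
        obtain ⟨K, hK1, ⟨i₀, hK2⟩, hK3, hK4⟩ := hs ⟨m, h⟩ hlm.2 hm0
        have h1 := hrel K l
        have h2 : ∀ I : Fin n → Fin k, dd z x (∏ i, BX A C k (I i) (K i)) = 0 := by
          intro I
          refine dd_prod _ _ _ _ fun i _ => ?_
          have h3 : (K i : ℕ) < m := hK1 i
          exact ih (K i) h3 (K i).2 (I i)
        simp only [h2, zero_mul, Finset.sum_const_zero] at h1
        have h3 : dd z x (SX A C (K, l)) = 0 := by
          rw [hSd]
          refine (Sz_mem _).2 K l ⟨i₀, ?_⟩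
          have h4 : (l : ℕ) < m := hlm.1
          have h5 : (K i₀ : ℕ) + 1 = m := hK2
          show (l : ℕ) ≤ K i₀
          omega
        rw [h3, zero_add, Finset.sum_eq_single (⟨m, h⟩ : Fin k)] at h1
        · rcases mul_eq_zero.1 h1.symm with h4 | h4
          · exact absurd h4 hK3
          · exact h4
        · intro m' _ hm'
          rw [hK4 m' hm', zero_mul]
        · simp
      · rw [hBd, dif_neg hlm]
  have hcol' : ∀ l m, dd z x (BX A C k l m) = 0 := fun l m => hcol m m.2 l
  have hS0 : ∀ K l, Sz A C (fun t => x t) (K, l) = 0 := by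
    intro K l
    have h1 := hrel K l
    have h2 : ∀ I : Fin n → Fin k, dd z x (∏ i, BX A C k (I i) (K i)) = 0 :=
      fun I => dd_prod _ _ _ _ fun i _ => hcol' _ _
    simp only [h2, zero_mul, Finset.sum_const_zero, hcol', mul_zero, add_zero] at h1
    rw [← hSd]
    exact h1.symm
  funext t
  rcases t with ⟨⟨l, m⟩, h⟩ | t
  · have h1 := hcol' l m
    rw [hBd, dif_pos h] at h1
    exact h1
  · have h1 : (∑ t, x (Sum.inr t) • Module.finBasis ℂ (Nsub n k A C) t : Nsub n k A C) = 0 := by
      refine Subtype.ext (funext fun q => ?_)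
      exact hS0 q.1 q.2
    exact Fintype.linearIndependent_iff.1 (Module.finBasis ℂ (Nsub n k A C)).linearIndependent
      (fun t => x (Sum.inr t)) h1 t

end Pool.Agent.H53.NA
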