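import Mathlib
import Pool.Agent.H53.NA.Der

/-! A special point, and the number of parameters. -/

set_option autoImplicit false
set_option linter.unusedSectionVars false

namespace Pool.Agent.H53.NA

variable {n k : ℕ} {A C : Finset (Fin n)}

/-- the maximal entry plus one -/
def mx (I : Fin n → Fin k) : ℕ := Finset.univ.sup fun i => (I i : ℕ) + 1

lemma le_mx (I : Fin n → Fin k) (i : Fin n) : (I i : ℕ) + 1 ≤ mx I :=
  Finset.le_sup (f := fun i => (I i : ℕ) + 1) (Finset.mem_univ i)

lemma mx_le {I : Fin n → Fin k} {N : ℕ} (h : ∀ i, (I i : ℕ) + 1 ≤ N) : mx I ≤ N :=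
  Finset.sup_le fun i _ => h i

lemma mx_perm (I : Fin n → Fin k) (π : Equiv.Perm (Fin n)) : mx (I ∘ π) = mx I := by
  refine le_antisymm (mx_le fun i => le_mx I (π i)) (mx_le fun i => ?_)
  have := le_mx (I ∘ π) (π.symm i)
  simpa using this

variable (A) in
/-- the Vandermonde determinant -/
noncomputable def vd (I : Fin n → Fin k) : ℂ :=
  (Matrix.vandermonde fun r : Fin A.card => (((I (A.equivFin.symm r) : Fin k) : ℕ) : ℂ)).det

lemma vd_A (I : Fin n → Fin k) {i j : Fin n} (hi : i ∈ A) (hj : j ∈ A) (hij : i ≠ j) :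
    vd A (I ∘ Equiv.swap i j) = - vd A I := by
  classical
  set σ : Equiv.Perm (Fin A.card) := Equiv.swap (A.equivFin ⟨i, hi⟩) (A.equivFin ⟨j, hj⟩) with hσ
  have h1 : Matrix.vandermonde (fun r : Fin A.card =>
      ((((I ∘ Equiv.swap i j) (A.equivFin.symm r) : Fin k) : ℕ) : ℂ)) =
      (Matrix.vandermonde fun r : Fin A.card => (((I (A.equivFin.symm r) : Fin k) : ℕ) : ℂ)).submatrix
        σ id := by
    ext r s
    simp only [Matrix.vandermonde_apply, Matrix.submatrix_apply, Function.comp_apply, id_eq]
    congr 3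
    congr 1
    simp only [hσ]
    rcases eq_or_ne r (A.equivFin ⟨i, hi⟩) with rfl | h2
    · rw [Equiv.swap_apply_left]
      simp
    · rcases eq_or_ne r (A.equivFin ⟨j, hj⟩) with rfl | h3
      · rw [Equiv.swap_apply_right]
        simp
      · rw [Equiv.swap_apply_of_ne_of_ne h2 h3, Equiv.swap_apply_of_ne_of_ne]
        · intro h4
          apply h2
          have h5 : A.equivFin.symm r = ⟨i, hi⟩ := Subtype.ext h4
          rw [← h5]
          simp
        · intro h4
          apply h3
          have h5 : A.equivFin.symm r = ⟨j, hj⟩ := Subtype.ext h4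
          rw [← h5]
          simp
  unfold vd
  rw [h1, Matrix.det_permute, hσ, Equiv.Perm.sign_swap]
  · simp
  · intro h2
    have := A.equivFin.injective h2
    exact hij (congrArg Subtype.val this)

lemma vd_C (I : Fin n → Fin k) {i j : Fin n} (hi : i ∉ A) (hj : j ∉ A) :
    vd A (I ∘ Equiv.swap i j) = vd A I := by
  unfold vd
  congr 2
  funext r
  simp only [Function.comp_apply]
  rw [Equiv.swap_apply_of_ne_of_ne]
  · intro h
    exact hi (h ▸ (A.equivFin.symm r).2)
  · intro h
    exact hj (h ▸ (A.equivFin.symm r).2)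

/-- the special structure constants -/
noncomputable def s0 (n k : ℕ) (A : Finset (Fin n)) (q : (Fin n → Fin k) × Fin k) : ℂ :=
  if (q.2 : ℕ) = mx q.1 then vd A q.1 else 0

lemma s0_mem (hAC : Disjoint A C) : s0 n k A ∈ Nsub n k A C := by
  refine ⟨fun l => ⟨fun i hi j hj hij I => ?_, fun i hi j hj hij I => ?_⟩, ?_⟩
  · simp only [s0]
    rw [mx_perm, vd_A I hi hj hij]
    split_ifs <;> simp
  · simp only [s0]
    rw [mx_perm, vd_C I (Finset.disjoint_right.1 hAC hi) (Finset.disjoint_right.1 hAC hj)]
  · rintro I l ⟨i, hi⟩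
    unfold s0
    rw [if_neg]
    have h1 := le_mx I i
    have h2 : (l : ℕ) ≤ I i := hi
    simp only
    omega

lemma s0_tuple (hn : 0 < n) (m : Fin k) (hm : A.card ≤ (m : ℕ)) (hm0 : 0 < (m : ℕ)) :
    ∃ K : Fin n → Fin k, (∀ i, K i < m) ∧ (∃ i, (K i : ℕ) + 1 = m) ∧ s0 n k A (K, m) ≠ 0 ∧
      ∀ m', m' ≠ m → s0 n k A (K, m') = 0 := by
  classical
  have hmk := m.2
  set K : Fin n → Fin k := fun i => if h : i ∈ A then
    ⟨m - 1 - (A.equivFin ⟨i, h⟩ : ℕ), by omega⟩ else ⟨m - 1, by omega⟩ with hK
  have hKA : ∀ r : Fin A.card, (K (A.equivFin.symm r) : ℕ) = m - 1 - (r : ℕ) := by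
    intro r
    simp only [hK]
    rw [dif_pos (A.equivFin.symm r).2]
    simp
  have h1 : ∀ i, (K i : ℕ) + 1 ≤ m := by
    intro i
    simp only [hK]
    split_ifs <;> simp only <;> omega
  have h2 : ∃ i, (K i : ℕ) + 1 = m := by
    rcases Nat.eq_zero_or_pos A.card with h0 | h0
    · refine ⟨⟨0, hn⟩, ?_⟩
      rw [Finset.card_eq_zero] at h0
      simp only [hK]
      rw [dif_neg (by rw [h0]; simp)]
      simp only
      omega
    · refine ⟨A.equivFin.symm ⟨0, h0⟩, ?_⟩
      rw [hKA]
      simp only
      omega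
  have h3 : mx K = m := by
    refine le_antisymm (mx_le h1) ?_
    obtain ⟨i, hi⟩ := h2
    rw [← hi]
    exact le_mx K i
  refine ⟨K, fun i => ?_, h2, ?_, ?_⟩
  · have := h1 i
    show (K i : ℕ) < m
    omega
  · unfold s0
    rw [if_pos h3.symm]
    unfold vd
    rw [Matrix.det_vandermonde_ne_zero_iff]
    intro r s hrs
    simp only [hKA] at hrs
    have h4 : (m : ℕ) - 1 - (r : ℕ) = m - 1 - s := by exact_mod_cast hrs
    have h5 := r.2
    have h6 := s.2
    apply Fin.ext
    omega
  · intro m' hm'
    unfold s0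
    rw [if_neg]
    simp only [h3]
    exact fun h => hm' (Fin.ext h)

/-! ### the numbers -/

/-- the strictly triangular structures, by the last index -/
noncomputable def splitN (n k : ℕ) (A C : Finset (Fin n)) :
    Nsub n k A C ≃ₗ[ℂ] (∀ l : Fin k, symF A C {x : Fin k // x < l}) where
  toFun f l := ⟨fun I => f.1 (fun i => (I i).1, l), by
    refine ⟨fun i hi j hj hij I => ?_, fun i hi j hj hij I => ?_⟩
    · exact (f.2.1 l).1 i hi j hj hij (fun i => (I i).1)
    · exact (f.2.1 l).2 i hi j hj hij (fun i => (I i).1)⟩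
  map_add' f g := rfl
  map_smul' c f := rfl
  invFun g := ⟨fun q => if h : ∀ i, q.1 i < q.2 then (g q.2).1 (fun i => ⟨q.1 i, h i⟩) else 0, by
    refine ⟨fun l => ⟨fun i hi j hj hij I => ?_, fun i hi j hj hij I => ?_⟩, ?_⟩
    · by_cases h : ∀ i, I i < l
      · simp only
        have h' : ∀ r, (I ∘ Equiv.swap i j) r < l := fun r => h _
        rw [dif_pos h, dif_pos h']
        exact (g l).2.1 i hi j hj hij (fun i => ⟨I i, h i⟩)
      · simp only
        rw [dif_neg h, dif_neg, neg_zero]
        intro h'
        apply h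
        intro r
        have := h' (Equiv.swap i j r)
        simpa using this
    · by_cases h : ∀ i, I i < l
      · simp only
        have h' : ∀ r, (I ∘ Equiv.swap i j) r < l := fun r => h _
        rw [dif_pos h, dif_pos h']
        exact (g l).2.2 i hi j hj hij (fun i => ⟨I i, h i⟩)
      · simp only
        rw [dif_neg h, dif_neg]
        intro h'
        apply h
        intro r
        have := h' (Equiv.swap i j r)
        simpa using this
    · rintro I l ⟨i, hi⟩
      simp only
      rw [dif_neg]
      intro h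
      exact absurd (h i) (not_lt.2 hi)⟩
  left_inv f := by
    refine Subtype.ext (funext fun q => ?_)
    simp only
    by_cases h : ∀ i, q.1 i < q.2
    · rw [dif_pos h]
    · rw [dif_neg h]
      push Not at h
      exact (f.2.2 q.1 q.2 h).symm
  right_inv g := by
    funext l
    refine Subtype.ext (funext fun I => ?_)
    simp only
    rw [dif_pos (fun i => (I i).2)]

lemma finrank_Nsub (hAC : Disjoint A C) : Module.finrank ℂ (Nsub n k A C) =
    ∑ m ∈ Finset.range k, m.choose A.card * (m.multichoose C.card * m ^ (n - A.card - C.card)) := by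
  classical
  rw [(splitN n k A C).finrank_eq, Module.finrank_pi_fintype, Finset.sum_range]
  refine Finset.sum_congr rfl fun l _ => ?_
  rw [finrank_symF hAC]
  have h1 : Fintype.card {x : Fin k // x < l} = l := by
    rw [Fintype.card_subtype]
    have h2 : (Finset.univ.filter fun x : Fin k => x < l) = Finset.Iio l := by
      ext x
      simp
    rw [h2, Fin.card_Iio]
  rw [h1]

lemma card_UI (k a : ℕ) : Fintype.card (UI k a) =
    k * (k - 1) / 2 - min a k * (min a k - 1) / 2 := by
  classical
  have h1 : Fintype.card (UI k a) = ∑ m : Fin k, if a ≤ (m : ℕ) then (m : ℕ) else 0 := by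
    rw [Fintype.card_subtype, Finset.card_filter, Fintype.sum_prod_type, Finset.sum_comm]
    refine Finset.sum_congr rfl fun m _ => ?_
    by_cases h : a ≤ (m : ℕ)
    · simp only [h, and_true, if_true]
      rw [← Finset.card_filter]
      have h2 : (Finset.univ.filter fun x : Fin k => x < m) = Finset.Iio m := by
        ext x
        simp
      rw [h2, Fin.card_Iio]
    · simp [h]
  have h2 : (∑ m : Fin k, if a ≤ (m : ℕ) then (m : ℕ) else 0) =
      ∑ m ∈ Finset.range k, if a ≤ m then m else 0 := by
    rw [Finset.sum_range]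
  have h3 : (∑ m ∈ Finset.range k, if a ≤ m then m else 0) +
      (∑ m ∈ Finset.range (min a k), m) = ∑ m ∈ Finset.range k, m := by
    have h4 : (∑ m ∈ Finset.range (min a k), m) = ∑ m ∈ Finset.range k, if a ≤ m then 0 else m := by
      rw [Finset.sum_ite, Finset.sum_const_zero, zero_add]
      have h5 : Finset.range (min a k) = (Finset.range k).filter fun m => ¬ a ≤ m := by
        ext m
        simp only [Finset.mem_range, Finset.mem_filter]
        omega
      rw [h5]
    rw [h4, ← Finset.sum_add_distrib]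
    refine Finset.sum_congr rfl fun m _ => ?_
    split_ifs <;> simp
  rw [Finset.sum_range_id, Finset.sum_range_id] at h3
  rw [h1, h2]
  omega

end Pool.Agent.H53.NA
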