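import Mathlib
import Pool.Agent.H53.NA.Pt

/-! The dimension of the variety. -/

set_option autoImplicit false
set_option linter.unusedSectionVars false

namespace Pool.Agent.H53.NA

open MvPolynomial

variable {n k : ℕ} {A C : Finset (Fin n)}

lemma lower (hn : 0 < n) (hAC : Disjoint A C) {D : ℕ} (hD : Fintype.card (Tau n k A C) = D) :
    ∃ f : Fin D → MvPolynomial ((Fin n → Fin k) × Fin k) ℂ, ∀ P : MvPolynomial (Fin D) ℂ,
      (∀ x ∈ variety n k A C, eval (fun i => eval x (f i)) P = 0) → P = 0 := by
  classical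
  set z₀ : Tau n k A C → ℂ := Sum.elim (fun _ => 0)
    (fun t => (Module.finBasis ℂ (Nsub n k A C)).repr ⟨s0 n k A, s0_mem hAC⟩ t) with hz
  have hSz : Sz A C z₀ = s0 n k A := by
    unfold Sz
    simp only [hz, Sum.elim_inr]
    rw [Module.Basis.sum_repr]
  let J : (Tau n k A C → ℂ) →ₗ[ℂ] ((Fin n → Fin k) × Fin k → ℂ) :=
    { toFun := fun x q => dd z₀ x (cX A C q)
      map_add' := fun x y => by
        funext q
        simp only [dd, Pi.add_apply, add_mul, Finset.sum_add_distrib]
      map_smul' := fun c x => by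
        funext q
        simp only [dd, Pi.smul_apply, smul_eq_mul, RingHom.id_apply, Finset.mul_sum, mul_assoc] }
  have hJ : LinearMap.ker J = ⊥ := by
    rw [LinearMap.ker_eq_bot']
    intro x hx
    refine dd_inj z₀ x (fun q => rfl) (fun m hm hm0 => ?_) (fun q => congrFun hx q)
    rw [hSz]
    exact s0_tuple hn m hm hm0
  obtain ⟨R, hR⟩ := LinearMap.exists_leftInverse_of_injective J hJ
  have hR' : ∀ x, R (J x) = x := fun x => LinearMap.congr_fun hR x
  set F : Tau n k A C → MvPolynomial (Tau n k A C) ℂ := fun t =>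
    ∑ q, MvPolynomial.C (R (Pi.single q 1) t) * cX A C q with hF
  have hFd : ∀ x t, dd z₀ x (F t) = x t := by
    intro x t
    simp only [hF]
    rw [dd_sum]
    have h1 : ∀ q, dd z₀ x (MvPolynomial.C (R (Pi.single q 1) t) * cX A C q) =
        (J x q) * R (Pi.single q 1) t := by
      intro q
      rw [dd_mul, dd_C, eval_C, zero_mul, zero_add, mul_comm]
      rfl
    rw [Finset.sum_congr rfl fun q _ => h1 q]
    have h2 : R (J x) = ∑ q, J x q • R (Pi.single q 1) := by
      conv_lhs => rw [← Finset.univ_sum_single (J x)]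
      rw [map_sum]
      refine Finset.sum_congr rfl fun q _ => ?_
      rw [← map_smul]
      congr 1
      funext q'
      by_cases h : q' = q
      · subst h
        simp
      · simp [Pi.single_apply, h]
    have h3 := congrFun h2 t
    rw [hR', Finset.sum_apply] at h3
    rw [h3]
    rfl
  have hjac := jac F z₀ (by
    intro i j
    have h1 := hFd (Pi.single j 1) i
    unfold dd at h1
    rw [Finset.sum_eq_single j] at h1
    · rw [Pi.single_eq_same, one_mul] at h1
      rw [h1]
      by_cases h : i = j
      · subst h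
        simp
      · simp [h]
    · intro b _ hb
      simp [Pi.single_apply, hb]
    · simp)
  have e : Tau n k A C ≃ Fin D := Fintype.equivFinOfCardEq hD
  refine ⟨fun i => ∑ q, MvPolynomial.C (R (Pi.single q 1) (e.symm i)) * X q, fun P hP => ?_⟩
  have h1 : aeval (fun i => F (e.symm i)) P = 0 := by
    refine MvPolynomial.funext fun z => ?_
    rw [map_zero]
    have h2 := hP _ (mem_variety hn z)
    rw [aeval_def, ← MvPolynomial.coe_eval₂Hom, ← RingHom.comp_apply] 
    rw [← h2]
    have h3 : (eval z).comp (eval₂Hom (algebraMap ℂ (MvPolynomial (Tau n k A C) ℂ))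
        fun i => F (e.symm i)) = eval (fun i => eval (fun q => eval z (cX A C q))
          (∑ q, MvPolynomial.C (R (Pi.single q 1) (e.symm i)) * X q)) := by
      refine MvPolynomial.ringHom_ext (fun r => ?_) (fun i => ?_)
      · simp
      · simp [hF]
    rw [h3]
  have h2 : aeval F (rename e.symm P) = 0 := by
    rw [aeval_rename]
    exact h1
  have h3 := hjac _ h2
  exact (rename_injective _ e.symm.injective) (by rw [h3, map_zero])

lemma upper (hk : 0 < k) {D : ℕ} (hD : Fintype.card (Tau n k A C) = D)
    {d : ℕ} (f : Fin d → MvPolynomial ((Fin n → Fin k) × Fin k) ℂ)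
    (hf : ∀ P : MvPolynomial (Fin d) ℂ,
      (∀ x ∈ variety n k A C, eval (fun i => eval x (f i)) P = 0) → P = 0) : d ≤ D := by
  classical
  by_contra hlt
  push Not at hlt
  set f' : Fin (D + 1) → MvPolynomial ((Fin n → Fin k) × Fin k) ℂ :=
    fun i => f (Fin.castLE hlt i) with hf'
  have hdep : ∀ w : Equiv.Perm (Fin k), ∃ P : MvPolynomial (Fin (D + 1)) ℂ, P ≠ 0 ∧
      aeval (fun i => aeval (fun q : (Fin n → Fin k) × Fin k =>
        cX A C (w.symm ∘ q.1, w.symm q.2)) (f' i)) P = 0 := fun w => dep hD _
  choose P hP0 hP using hdep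
  have hprod : (∏ w, P w) ≠ 0 := Finset.prod_ne_zero_iff.2 fun w _ => hP0 w
  apply hprod
  refine (rename_injective (Fin.castLE hlt) (Fin.castLE_injective hlt)) ?_
  rw [map_zero]
  refine hf _ fun x hx => ?_
  rw [eval_rename, map_prod]
  obtain ⟨w, z, hwz⟩ := exists_point hk hx
  refine Finset.prod_eq_zero (Finset.mem_univ w) ?_
  have hx' : x = fun q => eval z (cX A C (w.symm ∘ q.1, w.symm q.2)) := by
    funext q
    rw [← hwz]
    congr 1
    ext
    · simp
    · simp
  have h1 := congrArg (eval z) (hP w)
  rw [map_zero] at h1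
  rw [← h1]
  have h3 : (eval z).comp (aeval (R := ℂ) (fun i => aeval (R := ℂ)
      (fun q : (Fin n → Fin k) × Fin k => cX A C (w.symm ∘ q.1, w.symm q.2)) (f' i))).toRingHom =
      eval ((fun i => eval x (f i)) ∘ Fin.castLE hlt) := by
    refine MvPolynomial.ringHom_ext (fun r => ?_) (fun i => ?_)
    · simp
    · simp only [AlgHom.toRingHom_eq_coe, RingHom.coe_comp, RingHom.coe_coe, Function.comp_apply,
        aeval_X, eval_X]
      rw [hx', hf']
      have h4 : (eval z).comp (aeval (R := ℂ)
          (fun q : (Fin n → Fin k) × Fin k => cX A C (w.symm ∘ q.1, w.symm q.2))).toRingHom =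
          eval (fun q : (Fin n → Fin k) × Fin k => eval z (cX A C (w.symm ∘ q.1, w.symm q.2))) := by
        refine MvPolynomial.ringHom_ext (fun r => ?_) (fun i => ?_)
        · simp
        · simp
      exact RingHom.congr_fun h4 (f (Fin.castLE hlt i))
  exact (RingHom.congr_fun h3 (P w)).symm

theorem main (hn : 0 < n) (hk : 0 < k) (hAC : Disjoint A C) :
    HasDimension (variety n k A C) (k * (k - 1) / 2 - min A.card k * (min A.card k - 1) / 2 +
      ∑ m ∈ Finset.range k, m.choose A.card * (m.multichoose C.card *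
        m ^ (n - A.card - C.card))) := by
  have hD : Fintype.card (Tau n k A C) = k * (k - 1) / 2 - min A.card k * (min A.card k - 1) / 2 +
      ∑ m ∈ Finset.range k, m.choose A.card * (m.multichoose C.card *
        m ^ (n - A.card - C.card)) := by
    rw [Fintype.card_sum, card_UI, Fintype.card_fin, finrank_Nsub hAC]
  refine ⟨lower hn hAC hD, ?_⟩
  rintro d ⟨f, hf⟩
  exact upper hk hD f hf

end Pool.Agent.H53.NA
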